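import Pool.Agent.Lib.MP_305fdd_al.F8.StmNI

set_option autoImplicit false

namespace Pool.Agent.F8

open Pool.Agent.MP_305fdd_al Pool.Agent.Lib.MP_305fdd_al Pool.Agent.F2X

theorem p_Jq (hJd : S_Jd) : S_Jq := by
  intro R _ c N hc
  obtain ⟨hdet, hrow⟩ := hJd R c N
  have h0 := hrow false
  have h1 := hrow true
  rw [hc] at h0 h1
  have e0 : c (lt false) = c x0 := rfl
  have e1 : c (lt true) = c ga := rfl
  rw [e0] at h0
  rw [e1] at h1
  have hz : ((oT N).map c).sum = ((oc N false false).map c).sum + ((oc N true true).map c).sum := by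
    unfold oT; rw [List.map_append, List.sum_append]
  rw [hz]
  generalize ((oc N false false).map c).sum = a at *
  generalize ((oc N true true).map c).sum = d at *
  generalize ((oc N false true).map c).sum = b at *
  generalize ((oc N true false).map c).sum = c' at *
  have hx : (2 - (a + d)) * c x0 = 2 - (a + d) := by
    linear_combination (c x0 - 1) * (-hdet) + (d - 1) * h0 - b * h1
  have hg : (2 - (a + d)) * c ga = 2 - (a + d) := by
    linear_combination (c ga - 1) * (-hdet) - c' * h0 + (a - 1) * h1
  generalize 2 - (a + d) = z at *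
  have hmul : ∀ v w, z * c v = z → z * c w = z → z * c (v * w) = z := by
    intro v w hv hw
    rw [map_mul, ← mul_assoc, hv, hw]
  have hinv : ∀ v, z * c v = z → z * c v⁻¹ = z := by
    intro v hv
    calc z * c v⁻¹ = z * c v * c v⁻¹ := by rw [hv]
      _ = z := by rw [mul_assoc, ← map_mul, mul_inv_cancel, map_one, mul_one]
  have hgb : z * c gb = z := by
    have : gb = ga * x0⁻¹ := by unfold x0; group
    rw [this]
    exact hmul _ _ hg (hinv _ hx)
  intro w
  induction w using FreeGroup.induction_on with
  | C1 => rw [map_one, mul_one]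
  | of i =>
    fin_cases i
    · exact hg
    · exact hgb
  | inv_of i _ =>
    apply hinv
    fin_cases i
    · exact hg
    · exact hgb
  | mul x y hx hy => exact hmul x y hx hy

end Pool.Agent.F8
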