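import Pool.Agent.Lib.MP_305fdd_al.F8.StmNI

/-!
# MP_305fdd_al, block NI: piece Lu
-/

set_option autoImplicit false

namespace Pool.Agent.F8

open Pool.Agent.MP_305fdd_al Pool.Agent.Lib.MP_305fdd_al Pool.Agent.F2X
open scoped QuadraticAlgebra

private theorem Lu_A : (AM phi).val = !![3, 1; -1, 0] := by
  rw [AM_val, amat_eq]
  have h1 : vec (phi.toMonoidHom ga) = vec (phi ga) := rfl
  have h2 : vec (phi.toMonoidHom gb) = vec (phi gb) := rfl
  rw [h1, h2, phi_ga, phi_gb]
  ext i j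
  fin_cases i <;> fin_cases j <;> simp [vec_mul, vec_inv, vec_of, pow_two]

private theorem Lu_pow (N : ℕ) : (AM (phi ^ N)).val = (!![3, 1; -1, 0] : Matrix (Fin 2) (Fin 2) ℤ) ^ N := by
  rw [map_pow, Units.val_pow_eq_pow_val, Lu_A]

private theorem Lu_sq : (!![3, 1; -1, 0] : Matrix (Fin 2) (Fin 2) ℤ) ^ 2 =
    3 • !![3, 1; -1, 0] - 1 := by
  ext i j
  fin_cases i <;> fin_cases j <;> simp [pow_two, Matrix.mul_apply, Fin.sum_univ_two]

private theorem Lu_tr (N : ℕ) :
    ((!![3, 1; -1, 0] : Matrix (Fin 2) (Fin 2) ℤ) ^ N).trace = Lu N ∧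
      ((!![3, 1; -1, 0] : Matrix (Fin 2) (Fin 2) ℤ) ^ (N + 1)).trace = Lu (N + 1) := by
  induction N with
  | zero =>
    constructor
    · simp [Lu]
    · simp [Lu, Matrix.trace_fin_two]
  | succ N ih =>
    refine ⟨ih.2, ?_⟩
    have h : (!![3, 1; -1, 0] : Matrix (Fin 2) (Fin 2) ℤ) ^ (N + 1 + 1) =
        3 • (!![3, 1; -1, 0] : Matrix (Fin 2) (Fin 2) ℤ) ^ (N + 1) -
          (!![3, 1; -1, 0] : Matrix (Fin 2) (Fin 2) ℤ) ^ N := by
      rw [show N + 1 + 1 = N + 2 from rfl, pow_add, Lu_sq, mul_sub, mul_one, mul_smul_comm,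
        ← pow_succ]
    rw [h, Matrix.trace_sub, Matrix.trace_smul, ih.1, ih.2]
    simp [Lu]

private theorem Lu_len (N : ℕ) (j : Bool) :
    (oc (N + 1) false j).length = (oc N false j).length + (oc N true j).length ∧
      (oc (N + 1) true j).length = (oc N false j).length + 2 * (oc N true j).length := by
  constructor
  · simp [oc]
  · simp [oc]
    ring

private theorem Lu_oT (N : ℕ) : ((oT N).length : ℤ) = Lu N ∧ ((oT (N + 1)).length : ℤ) = Lu (N + 1) := by
  induction N with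
  | zero =>
    constructor
    · simp [oT, oc, Lu]
    · simp [oT, oc, Lu]
  | succ N ih =>
    refine ⟨ih.2, ?_⟩
    have e : ((oT (N + 1 + 1)).length : ℤ) = 3 * ((oT (N + 1)).length : ℤ) - (oT N).length := by
      unfold oT
      rw [List.length_append, List.length_append, List.length_append]
      rw [(Lu_len (N + 1) false).1, (Lu_len (N + 1) true).2, (Lu_len N false).1,
        (Lu_len N false).2, (Lu_len N true).1, (Lu_len N true).2]
      push_cast
      ring
    rw [e, ih.1, ih.2]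
    simp [Lu]

private theorem Lu_gt (N : ℕ) : 2 ≤ Lu N ∧ Lu N < Lu (N + 1) := by
  induction N with
  | zero => simp [Lu]
  | succ N ih =>
    refine ⟨by linarith [ih.1, ih.2], ?_⟩
    have : Lu (N + 1 + 1) = 3 * Lu (N + 1) - Lu N := rfl
    rw [this]
    linarith [ih.1, ih.2]

theorem p_Lu : S_Lu := by
  intro N
  refine ⟨?_, ?_, (Lu_oT N).1, ?_⟩
  · rw [Lu_pow]
    exact (Lu_tr N).1
  · rw [Lu_pow, Matrix.det_pow]
    have : (!![3, 1; -1, 0] : Matrix (Fin 2) (Fin 2) ℤ).det = 1 := by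
      rw [Matrix.det_fin_two_of]
      norm_num
    rw [this, one_pow]
  · linarith [(Lu_gt N).1, (Lu_gt N).2]

end Pool.Agent.F8
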