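import Pool.Agent.Lib.MP_305fdd_al.F8.StmNI

/-!
# MP_305fdd_al, cyclic covers of the figure-eight knot complement: the main result of block NI
-/

set_option autoImplicit false

namespace Pool.Agent.F8

open Pool.Agent.MP_305fdd_al Pool.Agent.Lib.MP_305fdd_al Pool.Agent.F2X
open scoped QuadraticAlgebra

private theorem NI_inv_val {K : Type} [CommRing K] (A : SL2 K) : A.val * (A⁻¹).val = 1 := by
  have h : A * A⁻¹ = 1 := mul_inv_cancel A
  have := congrArg Subtype.val h
  rwa [Matrix.SpecialLinearGroup.coe_mul, Matrix.SpecialLinearGroup.coe_one] at this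

private theorem NI_val_inv {K : Type} [CommRing K] (A : SL2 K) : (A⁻¹).val * A.val = 1 := by
  have h : A⁻¹ * A = 1 := inv_mul_cancel A
  have := congrArg Subtype.val h
  rwa [Matrix.SpecialLinearGroup.coe_mul, Matrix.SpecialLinearGroup.coe_one] at this

private theorem NI_conj {G K : Type} [Group G] [CommRing K] (f g : G →* SL2 K)
    (P : GL (Fin 2) K) (S : Set G) (hS : Subgroup.closure S = ⊤)
    (h : ∀ x ∈ S, P.val * (f x).val = (g x).val * P.val) (x : G) : tr (g x) = tr (f x) := by
  have hx : P.val * (f x).val = (g x).val * P.val := by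
    have hm : x ∈ Subgroup.closure S := by rw [hS]; trivial
    induction hm using Subgroup.closure_induction with
    | mem y hy => exact h y hy
    | one =>
      rw [map_one, map_one, Matrix.SpecialLinearGroup.coe_one, mul_one, one_mul]
    | mul y z _ _ hy hz =>
      rw [map_mul, map_mul, Matrix.SpecialLinearGroup.coe_mul, Matrix.SpecialLinearGroup.coe_mul,
        ← mul_assoc, hy, mul_assoc, hz, mul_assoc]
    | inv y _ hy =>
      rw [map_inv, map_inv]
      calc P.val * ((f y)⁻¹).val = ((g y)⁻¹).val * (g y).val * (P.val * ((f y)⁻¹).val) := by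
            rw [NI_val_inv, one_mul]
        _ = ((g y)⁻¹).val * ((g y).val * P.val) * ((f y)⁻¹).val := by
            simp only [mul_assoc]
        _ = ((g y)⁻¹).val * (P.val * (f y).val) * ((f y)⁻¹).val := by rw [hy]
        _ = ((g y)⁻¹).val * P.val * ((f y).val * ((f y)⁻¹).val) := by
            simp only [mul_assoc]
        _ = ((g y)⁻¹).val * P.val := by rw [NI_inv_val, mul_one]
  have h1 : (g x).val = P.val * (f x).val * (P⁻¹).val := by
    rw [hx, mul_assoc]
    have : P.val * (P⁻¹).val = 1 := by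
      rw [← Units.val_mul, mul_inv_cancel]; rfl
    rw [this, mul_one]
  unfold tr
  rw [h1, Matrix.trace_mul_comm, ← mul_assoc]
  have : (P⁻¹).val * P.val = 1 := by
    rw [← Units.val_mul, inv_mul_cancel]; rfl
  rw [this, one_mul]

private theorem NI_mem {N : ℕ} {w : F} (h : Pr N w) : w ∈ oT N :=
  List.mem_append_right _ h.1

private theorem NI_cast {N M : ℕ} {w : F} (h : Pr N w) (e : N = M) : Pr M w := e ▸ h

theorem p_NI (hseq : S_seq) (hfou : S_fou) (hfr3 : S_fr3) (hgen : S_gen) (hirn : S_irn)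
    (hpr : S_pr) (hw123 : S_w123) (hPcl : S_Pcl) : S_NI := by
  intro n hn K _ h2 hnK w hw ρ hρ c X τ hX hEx
  have hirr : ∀ N : ℕ, Irr ((rN N w hw).comp (iN N)) := by
    intro N
    refine ⟨ga, gb, ?_⟩
    have h := (hirn K N w hw).1
    intro h'
    have h'' : (-2 : K) = 2 := by rw [← h]; exact h'
    have h4 : (2 : K) * 2 = 0 := by linear_combination (-1 : K) * h''
    rcases mul_eq_zero.1 h4 with h5 | h5 <;> exact h2 h5
  -- the traces of proper loops
  have key : ∀ (m : Fin 3) (w' : F), Pr (n * (m.val + 1)) w' →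
      tr (ρ (inc n (m.val + 1) (gl (n * (m.val + 1)) w'))) =
        tr (rN n w hw (inc n (m.val + 1) (gl (n * (m.val + 1)) w'))) := by
    intro m w' hw'
    have hN : 1 ≤ n * (m.val + 1) := Nat.mul_pos (by omega) (by omega)
    have hρm : Irr ((ρ.comp (inc n (m.val + 1))).comp (iN (n * (m.val + 1)))) := by
      have e : (ρ.comp (inc n (m.val + 1))).comp (iN (n * (m.val + 1))) = ρ.comp (iN n) := by
        apply MonoidHom.ext
        intro v
        show ρ (inc n (m.val + 1) (iN (n * (m.val + 1)) v)) = ρ (iN n v)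
        rw [inc_iN]
      rw [e]; exact hρ
    have hs : ∀ i, sT (ρ.comp (inc n (m.val + 1))) (X m i) =
        sT (rN (n * (m.val + 1)) w hw) (X m i) := by
      intro i
      exact hseq K _ _ _ (X m i) (τ m i) ((hX m).t1 i) hρm (hirr _) (hEx m i).2 (hEx m i).1
    have h3 := hfou K (n * (m.val + 1)) (c m) (X m) hN (hX m) _ _ hs w' (NI_mem hw')
      (hPcl _ _ hN hw')
    rw [← rN_inc] at h3
    exact h3
  obtain ⟨g0, g1, g2, g3⟩ := hgen n
  obtain ⟨p1, p2, p3⟩ := hw123 n hn
  have k1 : ∀ w' : F, Pr n w' → tr (ρ (gl n w')) = tr (rN n w hw (gl n w')) := by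
    intro w' hw'
    rw [g1 w']
    exact key 0 w' (NI_cast hw' (by simp))
  have k2 : ∀ v v' : F, Pr n v → Pr n v' →
      tr (ρ (gl n v * gl n v')) = tr (rN n w hw (gl n v * gl n v')) := by
    intro v v' hv hv'
    rw [g2 v v']
    exact key 1 _ (NI_cast (hpr n n v v' hv hv') (by show n + n = n * 2; ring))
  have k3 : ∀ v v' v'' : F, Pr n v → Pr n v' → Pr n v'' →
      tr (ρ (gl n v * gl n v' * gl n v'')) = tr (rN n w hw (gl n v * gl n v' * gl n v'')) := by
    intro v v' v'' hv hv' hv''
    rw [g3 v v' v'']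
    exact key 2 _ (NI_cast (hpr (n + n) n _ v'' (hpr n n v v' hv hv') hv'')
      (by show n + n + n = n * 3; ring))
  have hw0 : w ≠ 0 := by
    intro h
    rw [h] at hw
    simp at hw
  obtain ⟨P, hP1, hP2, hP3⟩ := hfr3 K (rN n w hw (gl n w1)) (rN n w hw (gl n w2))
    (rN n w hw (gl n w3)) (ρ (gl n w1)) (ρ (gl n w2)) (ρ (gl n w3))
    (k1 _ p1).symm (k1 _ p2).symm (k1 _ p3).symm
    (by rw [← map_mul, ← map_mul]; exact (k2 _ _ p1 p2).symm)
    (by rw [← map_mul, ← map_mul]; exact (k2 _ _ p1 p3).symm)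
    (by rw [← map_mul, ← map_mul]; exact (k2 _ _ p2 p3).symm)
    (by rw [← map_mul, ← map_mul, ← map_mul, ← map_mul]; exact (k3 _ _ _ p1 p2 p3).symm)
    (by
      rw [← map_inv, ← map_inv, ← map_mul, ← map_mul, ← map_mul, (hirn K n w hw).2]
      intro h
      have h5 : (n : K) * n * w = 0 := by linear_combination h
      rcases mul_eq_zero.1 h5 with h6 | h6
      · rcases mul_eq_zero.1 h6 with h7 | h7 <;> exact hnK h7
      · exact hw0 h6)
  intro g
  apply NI_conj (rN n w hw) ρ P _ g0
  rintro x (rfl | rfl | rfl)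
  · exact hP1
  · exact hP2
  · exact hP3

end Pool.Agent.F8
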