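import Pool.Agent.Lib.MP_305fdd_al.F8.StmNI

/-!
# MP_305fdd_al, block NI: proper occurrences have non-trivial class
-/

set_option autoImplicit false

namespace Pool.Agent.F8

open Pool.Agent.MP_305fdd_al Pool.Agent.Lib.MP_305fdd_al Pool.Agent.F2X

private lemma Pcl_one (N : ℕ) (i : Bool) : (1 : F) ∈ oc N i i := by
  induction N with
  | zero => unfold oc; simp
  | succ N ih =>
    cases i
    · rw [oc, List.mem_append]; exact Or.inl ih
    · rw [oc, List.mem_append, List.mem_append]; exact Or.inl (Or.inl ih)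

private lemma Pcl_end (N : ℕ) : (phi ^ N) ga * ga⁻¹ ∈ oc N true true := by
  induction N with
  | zero => simp [oc]
  | succ N ih =>
    rw [oc, List.mem_append, List.mem_map]
    refine Or.inr ⟨_, ih, ?_⟩
    rw [pow_succ, MulAut.mul_apply, phi_ga', ← mul_assoc, ← map_mul]

private lemma Pcl_three {α : Type} (l : List α) (p : α → Bool) (a b c : α) (ha : a ∈ l)
    (hb : b ∈ l) (hc : c ∈ l) (hpa : p a = true) (hpb : p b = true) (hpc : p c = true)
    (hab : a ≠ b) (hac : a ≠ c) (hbc : b ≠ c) : 3 ≤ l.countP p := by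
  classical
  rw [List.countP_eq_length_filter]
  have h1 : ({a, b, c} : Finset α) ⊆ (l.filter p).toFinset := by
    intro x hx
    simp only [Finset.mem_insert, Finset.mem_singleton] at hx
    rw [List.mem_toFinset, List.mem_filter]
    rcases hx with rfl | rfl | rfl
    · exact ⟨ha, hpa⟩
    · exact ⟨hb, hpb⟩
    · exact ⟨hc, hpc⟩
  have h2 : ({a, b, c} : Finset α).card = 3 := Finset.card_eq_three.2 ⟨a, b, c, hab, hac, hbc, rfl⟩
  have h3 := Finset.card_le_card h1
  have h4 := List.toFinset_card_le (l.filter p)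
  omega

open Classical in
theorem p_Pcl (hU : S_U) : S_Pcl := by
  intro N w hN hw hcl
  obtain ⟨hw1, hw2, hw3⟩ := hw
  have h := hU N hN 1
  rw [if_pos rfl, oT, List.countP_append] at h
  have h1 : 1 ≤ (oc N false false).countP (fun w => decide (cl N w = 1)) :=
    List.one_le_countP_iff.2 ⟨1, Pcl_one N false, by simp⟩
  have he : cl N ((phi ^ N) ga * ga⁻¹) = 1 := by
    rw [map_mul, cl_phi, ← map_mul, mul_inv_cancel, map_one]
  have hle : cx ((phi ^ N) ga * ga⁻¹) + cu ((phi ^ N) ga * ga⁻¹) =
      cx ((phi ^ N) ga) + cu ((phi ^ N) ga) - 1 := by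
    rw [cx_mul, cu_mul, cx_inv, cu_inv, cx_ga, cu_ga]; ring
  have h3 : 3 ≤ (oc N true true).countP (fun w => decide (cl N w = 1)) := by
    apply Pcl_three _ _ 1 w ((phi ^ N) ga * ga⁻¹) (Pcl_one N true) hw1 (Pcl_end N)
    · simp
    · simpa using hcl
    · simpa using he
    · rintro rfl
      rw [cx_one, cu_one] at hw2
      omega
    · intro h0
      rw [← h0, cx_one, cu_one] at hle
      omega
    · intro h0
      rw [← h0] at hle
      omega
  omega

end Pool.Agent.F8
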