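import Pool.Agent.Lib.MP_305fdd_al.F8.StmNI

/-!
# [F8N U] THE KEY LEMMA: every non-trivial class contains exactly one occurrence, the trivial three
-/

set_option autoImplicit false

namespace Pool.Agent.F8

open Pool.Agent.MP_305fdd_al Pool.Agent.Lib.MP_305fdd_al Pool.Agent.F2X

/-- the universal character with values in the group ring of the class group -/
private noncomputable def U_c (N : ℕ) : F →* MonoidAlgebra ℤ (CG N) :=
  (MonoidAlgebra.of ℤ (CG N)).comp (cl N)

private theorem U_c_apply (N : ℕ) (w : F) : U_c N w = MonoidAlgebra.single (cl N w) 1 := rfl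

open Classical in
private theorem U_coeff (N : ℕ) (g : CG N) (l : List F) :
    ((l.map (U_c N)).sum).coeff g = (l.countP (fun w => decide (cl N w = g)) : ℤ) := by
  induction l with
  | nil => simp
  | cons a l ih =>
    rw [List.map_cons, List.sum_cons, MonoidAlgebra.coeff_add, Finsupp.add_apply, ih, U_c_apply,
      MonoidAlgebra.coeff_single, Finsupp.single_apply, List.countP_cons]
    by_cases h : cl N a = g
    · simp [h]; ring
    · simp [h]

open Classical in
private theorem U_sum (N : ℕ) [Fintype (CG N)] (l : List F) :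
    ∑ g : CG N, (l.countP (fun w => decide (cl N w = g)) : ℤ) = (l.length : ℤ) := by
  induction l with
  | nil => simp
  | cons a l ih =>
    have h : ∀ g : CG N, (((a :: l).countP (fun w => decide (cl N w = g)) : ℕ) : ℤ)
        = (l.countP (fun w => decide (cl N w = g)) : ℤ) + (if cl N a = g then 1 else 0) := by
      intro g
      rw [List.countP_cons]
      by_cases h : cl N a = g
      · simp [h]
      · simp [h]
    rw [Finset.sum_congr rfl (fun g _ => h g), Finset.sum_add_distrib, ih,
      Finset.sum_ite_eq Finset.univ (cl N a) (fun _ => (1 : ℤ)), if_pos (Finset.mem_univ _)]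
    push_cast [List.length_cons]
    ring

/-- [F8N U] every non-trivial class contains exactly one occurrence, the trivial class three. -/
theorem p_U (hJq : S_Jq) (hLu : S_Lu) (hcg : S_cg) : S_U := by
  classical
  intro N hN c0
  obtain ⟨hfin, hcard⟩ := hcg N hN
  have := hfin
  have : Fintype (CG N) := Fintype.ofFinite _
  have hinv : ∀ w, U_c N ((phi ^ N) w) = U_c N w := fun w => by
    rw [U_c_apply, U_c_apply, cl_phi]
  have hz := hJq (MonoidAlgebra ℤ (CG N)) (U_c N) N hinv
  set z : MonoidAlgebra ℤ (CG N) := 2 - ((oT N).map (U_c N)).sum with hzdef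
  have hco : ∀ g : CG N, z.coeff g = (if g = 1 then 2 else 0) -
      ((oT N).countP (fun w => decide (cl N w = g)) : ℤ) := by
    intro g
    rw [hzdef, MonoidAlgebra.coeff_sub, Finsupp.sub_apply, U_coeff]
    have h2 : ((2 : MonoidAlgebra ℤ (CG N)).coeff g) = if g = 1 then 2 else 0 := by
      have : (2 : MonoidAlgebra ℤ (CG N)).coeff = Finsupp.single 1 2 := rfl
      rw [this, Finsupp.single_apply]
      by_cases h : g = 1
      · rw [if_pos h, if_pos h.symm]
      · rw [if_neg h, if_neg (fun h' => h h'.symm)]
    rw [h2]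
  have hconst : ∀ g : CG N, z.coeff g = z.coeff 1 := by
    intro g
    obtain ⟨w, hw⟩ := cl_surjective N g
    have h := congrArg (fun y : MonoidAlgebra ℤ (CG N) => y.coeff g) (hz w)
    beta_reduce at h
    rw [U_c_apply, hw, MonoidAlgebra.coeff_mul_single_apply, mul_inv_cancel, mul_one] at h
    exact h.symm
  have hsum : ∑ g : CG N, z.coeff g = 2 - Lu N := by
    rw [Finset.sum_congr rfl (fun g _ => hco g), Finset.sum_sub_distrib, U_sum, (hLu N).2.2.1,
      Finset.sum_ite_eq' Finset.univ (1 : CG N) (fun _ => (2 : ℤ)), if_pos (Finset.mem_univ _)]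
  have hsum2 : ∑ g : CG N, z.coeff g = (Lu N - 2) * z.coeff 1 := by
    rw [Finset.sum_congr rfl (fun g _ => hconst g), Finset.sum_const, Finset.card_univ,
      ← Nat.card_eq_fintype_card, nsmul_eq_mul, hcard]
  have hpos : 0 < Lu N - 2 := by
    obtain ⟨M, rfl⟩ : ∃ M, N = M + 1 := ⟨N - 1, by omega⟩
    have := (hLu M).2.2.2
    linarith
  have h1 : z.coeff 1 = -1 := by
    have h : (Lu N - 2) * (z.coeff 1 + 1) = 0 := by linarith
    rcases mul_eq_zero.1 h with h | h
    · omega
    · linarith
  have h0 := hco c0
  rw [hconst c0, h1] at h0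
  have h3 : ((oT N).countP (fun w => decide (cl N w = c0)) : ℤ) = if c0 = 1 then 3 else 1 := by
    split_ifs at h0 ⊢
    · linarith
    · linarith
  have h4 : (((oT N).countP (fun w => decide (cl N w = c0)) : ℕ) : ℤ)
      = ((if c0 = 1 then 3 else 1 : ℕ) : ℤ) := by
    rw [h3]
    split_ifs <;> rfl
  exact_mod_cast h4

end Pool.Agent.F8
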