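import Pool.Agent.Lib.MP_305fdd_al.F8.StmNI

/-!
# MP_305fdd_al, cyclic covers of the figure-eight knot complement, piece [F8N ccp]
-/

set_option autoImplicit false

namespace Pool.Agent.F8

open Pool.Agent.MP_305fdd_al Pool.Agent.Lib.MP_305fdd_al Pool.Agent.F2X


/-- the homomorphism with the values `a cx w + b cu w` -/
private def ccp_h (a b : ℤ) : F →* Multiplicative ℤ where
  toFun w := Multiplicative.ofAdd (a * cx w + b * cu w)
  map_one' := by rw [cx_one, cu_one]; simp
  map_mul' v w := by
    rw [cx_mul, cu_mul, ← ofAdd_add]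
    congr 1
    ring

private theorem ccp_phi (w : F) : cx (phi w) = cx w + cu w ∧ cu (phi w) = cx w + 2 * cu w := by
  constructor
  · have h : (ccp_h 1 0).comp phi.toMonoidHom = ccp_h 1 1 := by
      apply hom_ext
      · show Multiplicative.ofAdd (1 * cx (phi ga) + 0 * cu (phi ga)) =
          Multiplicative.ofAdd (1 * cx ga + 1 * cu ga)
        refine congrArg Multiplicative.ofAdd ?_
        rw [phi_ga]
        simp only [cx_mul, cx_inv, cx_ga, cu_ga, cx_gb]
        ring
      · show Multiplicative.ofAdd (1 * cx (phi gb) + 0 * cu (phi gb)) =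
          Multiplicative.ofAdd (1 * cx gb + 1 * cu gb)
        refine congrArg Multiplicative.ofAdd ?_
        rw [phi_gb]
        simp only [cx_ga, cx_gb, cu_gb]
        ring
    have h1 : Multiplicative.ofAdd (1 * cx (phi w) + 0 * cu (phi w)) =
        Multiplicative.ofAdd (1 * cx w + 1 * cu w) := DFunLike.congr_fun h w
    have h2 := Multiplicative.ofAdd.injective h1
    linarith
  · have h : (ccp_h 0 1).comp phi.toMonoidHom = ccp_h 1 2 := by
      apply hom_ext
      · show Multiplicative.ofAdd (0 * cx (phi ga) + 1 * cu (phi ga)) =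
          Multiplicative.ofAdd (1 * cx ga + 2 * cu ga)
        refine congrArg Multiplicative.ofAdd ?_
        rw [phi_ga]
        simp only [cu_mul, cu_inv, cx_ga, cu_ga, cu_gb]
        ring
      · show Multiplicative.ofAdd (0 * cx (phi gb) + 1 * cu (phi gb)) =
          Multiplicative.ofAdd (1 * cx gb + 2 * cu gb)
        refine congrArg Multiplicative.ofAdd ?_
        rw [phi_gb]
        simp only [cu_ga, cx_gb, cu_gb]
        ring
    have h1 : Multiplicative.ofAdd (0 * cx (phi w) + 1 * cu (phi w)) =
        Multiplicative.ofAdd (1 * cx w + 2 * cu w) := DFunLike.congr_fun h w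
    have h2 := Multiplicative.ofAdd.injective h1
    linarith

theorem p_ccp : S_ccp := by
  refine ⟨ccp_phi, ?_⟩
  intro M
  induction M with
  | zero =>
    intro w h1 h2
    rw [pow_zero]
    exact ⟨h1, h2, le_rfl⟩
  | succ M ih =>
    intro w h1 h2
    rw [pow_succ, MulAut.mul_apply]
    obtain ⟨e1, e2⟩ := ccp_phi w
    obtain ⟨i1, i2, i3⟩ := ih (phi w) (by rw [e1]; linarith) (by rw [e2]; linarith)
    refine ⟨i1, i2, ?_⟩
    rw [e1, e2] at i3
    linarith

end Pool.Agent.F8
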