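import Pool.Agent.Lib.MP_305fdd_al.F8.StmNI

/-!
# MP_305fdd_al, block NI, piece [F8N cg]: the order of the class group
-/

set_option autoImplicit false

namespace Pool.Agent.F8

open Pool.Agent.MP_305fdd_al Pool.Agent.Lib.MP_305fdd_al Pool.Agent.F2X
open scoped QuadraticAlgebra

private theorem cg_card (M : Matrix (Fin 2) (Fin 2) ℤ) (h : M.det ≠ 0) :
    Nat.card ((Fin 2 → ℤ) ⧸ (M.mulVecLin.toAddMonoidHom).range) = M.det.natAbs := by
  have hinj : Function.Injective M.mulVecLin := by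
    rw [injective_iff_map_eq_zero]
    intro v hv
    by_contra hne
    exact h (Matrix.exists_mulVec_eq_zero_iff.1 ⟨v, hne, hv⟩)
  have h1 := Submodule.natAbs_det_equiv (LinearMap.range M.mulVecLin)
    (LinearEquiv.ofInjective M.mulVecLin hinj)
  have h2 : (LinearMap.range M.mulVecLin).subtype ∘ₗ AddMonoidHom.toIntLinearMap
      ((LinearEquiv.ofInjective M.mulVecLin hinj : (Fin 2 → ℤ) ≃ₗ[ℤ] _) : (Fin 2 → ℤ) →+ _) =
      Matrix.toLin' M := by
    ext v i
    rfl
  rw [h2, LinearMap.det_toLin'] at h1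
  rw [h1]
  rfl

theorem p_cg (hLu : S_Lu) : S_cg := by
  intro N hN
  obtain ⟨k, rfl⟩ : ∃ k, N = k + 1 := ⟨N - 1, by omega⟩
  obtain ⟨h1, h2, _, _⟩ := hLu (k + 1)
  obtain ⟨_, _, _, h4⟩ := hLu k
  have hdet : ((AM (phi ^ (k + 1))).val - 1).det = 2 - Lu (k + 1) := by
    rw [Matrix.trace_fin_two] at h1
    rw [Matrix.det_fin_two] at h2
    rw [Matrix.det_fin_two]
    simp only [Matrix.sub_apply, Matrix.one_apply_eq, ne_eq, zero_ne_one, not_false_eq_true,
      Matrix.one_apply_ne, one_ne_zero]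
    linear_combination h2 - h1
  have hne : ((AM (phi ^ (k + 1))).val - 1).det ≠ 0 := by rw [hdet]; omega
  have hc := cg_card _ hne
  have hc' : Nat.card (CG (k + 1)) = ((AM (phi ^ (k + 1))).val - 1).det.natAbs := hc
  refine ⟨?_, ?_⟩
  · apply Nat.finite_of_card_ne_zero
    rw [hc']
    exact Int.natAbs_ne_zero.2 hne
  · rw [hc', hdet, Int.natCast_natAbs, abs_of_neg (by omega)]
    ring

end Pool.Agent.F8
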