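import Pool.Agent.Lib.MP_305fdd_al.F8.StmNI

set_option autoImplicit false

namespace Pool.Agent.F8

theorem p_cpm : S_cpm := by
  intro R S _ _ f N c X hX hc
  refine ⟨fun i => ?_, hc, fun w hw => ?_⟩
  · rw [MonoidHom.comp_apply, hX.t1 i, map_one]
  · have h := hX.orth w hw
    have h2 : ∑ i, (((Units.map f.toMonoidHom).comp (X i)) (iN N w)).val =
        f (∑ i, (X i (iN N w)).val) := by
      rw [map_sum]
      rfl
    rw [h2, h, map_zero]

end Pool.Agent.F8
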