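import Pool.Agent.Lib.MP_305fdd_al.F8.StmNI

/-!
# MP_305fdd_al, block NI: piece cpx
-/

set_option autoImplicit false

namespace Pool.Agent.F8

open Pool.Agent.MP_305fdd_al Pool.Agent.Lib.MP_305fdd_al Pool.Agent.F2X
open scoped QuadraticAlgebra

private theorem cpx_orth (A K : Type) [CommGroup A] [Finite A] [Field K] [IsAlgClosed K]
    [CharZero K] {c : ℕ} (e : (A →* Kˣ) ≃ Fin c) (g : A) (hg : g ≠ 1) :
    ∑ i, ((e.symm i) g).val = 0 := by
  haveI : NeZero (Monoid.exponent A) := ⟨Monoid.exponent_ne_zero_of_finite⟩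
  haveI : NeZero ((Monoid.exponent A : ℕ) : K) := ⟨Nat.cast_ne_zero.2 (NeZero.ne _)⟩
  obtain ⟨ψ₀, hψ₀⟩ := CommGroup.exists_apply_ne_one_of_hasEnoughRootsOfUnity A K hg
  have h1 : (ψ₀ g).val * ∑ i, ((e.symm i) g).val = ∑ i, ((e.symm i) g).val := by
    rw [Finset.mul_sum]
    refine Fintype.sum_equiv ((e.symm.trans (Equiv.mulLeft ψ₀)).trans e) _ _ (fun i => ?_)
    simp
  have h2 : ((ψ₀ g).val - 1) * ∑ i, ((e.symm i) g).val = 0 := by
    rw [sub_mul, h1, one_mul, sub_self]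
  rcases mul_eq_zero.1 h2 with h | h
  · exact absurd (Units.ext (by simpa using sub_eq_zero.1 h)) hψ₀
  · exact h

theorem p_cpx : S_cg → S_Lu → S_cpx := by
  intro hcg _ K _ _ _ N hN
  obtain ⟨hfin, hcard⟩ := hcg N hN
  haveI : NeZero (Monoid.exponent (CG N)) := ⟨Monoid.exponent_ne_zero_of_finite⟩
  haveI : NeZero ((Monoid.exponent (CG N) : ℕ) : K) := ⟨Nat.cast_ne_zero.2 (NeZero.ne _)⟩
  obtain ⟨E⟩ := CommGroup.monoidHom_mulEquiv_of_hasEnoughRootsOfUnity (CG N) K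
  haveI : Finite (CG N →* Kˣ) := Finite.of_equiv _ E.symm.toEquiv
  have hc : Nat.card (CG N →* Kˣ) = Nat.card (CG N) := Nat.card_congr E.toEquiv
  have e : (CG N →* Kˣ) ≃ Fin (Nat.card (CG N)) := (Finite.equivFin _).trans (finCongr hc)
  have hinv : ∀ (ψ : CG N →* Kˣ) (w : F), (ψ.comp (cl N)) ((phi ^ N) w) =
      1 * (ψ.comp (cl N)) w * 1⁻¹ := by
    intro ψ w
    rw [one_mul, inv_one, mul_one, MonoidHom.comp_apply, MonoidHom.comp_apply, cl_phi]
  refine ⟨Nat.card (CG N), fun i => liftN ((e.symm i).comp (cl N)) 1 (hinv _), hcard, ?_, ?_⟩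
  · refine ⟨fun i => liftN_tN _ _ _, ?_, ?_⟩
    · exact Nat.cast_ne_zero.2 Nat.card_pos.ne'
    · intro w hw
      have := cpx_orth (CG N) K e (cl N w) hw
      rw [← this]
      refine Finset.sum_congr rfl (fun i _ => ?_)
      rw [liftN_iN]
      rfl
  · intro i g
    obtain ⟨w, n, rfl⟩ := GN_cases g
    rw [map_mul, map_zpow, liftN_iN, liftN_tN, one_zpow, mul_one, MonoidHom.comp_apply, ← map_pow,
      pow_card_eq_one', map_one]

end Pool.Agent.F8
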