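import Pool.Agent.Lib.MP_305fdd_al.F8.StmNI

/-!
# MP_305fdd_al, block NI: Fourier inversion
-/

set_option autoImplicit false

namespace Pool.Agent.F8

open Pool.Agent.MP_305fdd_al Pool.Agent.Lib.MP_305fdd_al Pool.Agent.F2X

private lemma fou_filter {α M : Type} [AddCommMonoid M] (p : α → Bool) (g : α → M) (l : List α)
    (h : ∀ x ∈ l, p x = false → g x = 0) : (l.map g).sum = ((l.filter p).map g).sum := by
  induction l with
  | nil => rfl
  | cons a l ih =>
    have ih' := ih (fun x hx => h x (List.mem_cons_of_mem _ hx))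
    rw [List.map_cons, List.sum_cons, ih']
    by_cases hp : p a = true
    · rw [List.filter_cons_of_pos hp, List.map_cons, List.sum_cons]
    · rw [List.filter_cons_of_neg hp, h a List.mem_cons_self (by simpa using hp), zero_add]

private lemma fou_swap {α ι K : Type} [Field K] (s : Finset ι) (f : ι → α → K) (l : List α) :
    ∑ i ∈ s, (l.map (f i)).sum = (l.map fun x => ∑ i ∈ s, f i x).sum := by
  induction l with
  | nil => simp
  | cons a l ih =>
    simp only [List.map_cons, List.sum_cons]
    rw [Finset.sum_add_distrib, ih]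

private lemma fou_sub {α K : Type} [Field K] (f g : α → K) (l : List α) :
    (l.map f).sum - (l.map g).sum = (l.map fun x => f x - g x).sum := by
  induction l with
  | nil => simp
  | cons a l ih =>
    simp only [List.map_cons, List.sum_cons]
    rw [← ih]; ring

private lemma fou_mul {α K : Type} [Field K] (a : K) (f : α → K) (l : List α) :
    a * (l.map f).sum = (l.map fun x => a * f x).sum := by
  induction l with
  | nil => simp
  | cons b l ih =>
    simp only [List.map_cons, List.sum_cons]
    rw [← ih]; ring

open Classical in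
theorem p_fou (hU : S_U) : S_fou := by
  intro K _ N c X hN hX ρ ρ' hs w hw hcl
  obtain ⟨D, hD⟩ : ∃ D, D = tr (ρ (tN N)) - tr (ρ' (tN N)) := ⟨_, rfl⟩
  obtain ⟨d, hd⟩ : ∃ d : F → K, d = fun w' => tr (ρ ((tN N)⁻¹ * iN N w')) -
    tr (ρ' ((tN N)⁻¹ * iN N w')) := ⟨_, rfl⟩
  have h1 : ∀ i, ((oT N).map fun w' => (X i (iN N w')).val * d w').sum = D := by
    intro i
    have h2 := hs i
    unfold sT at h2
    have h3 : ((oT N).map fun w' => (X i (iN N w')).val * tr (ρ ((tN N)⁻¹ * iN N w'))).sum -
        ((oT N).map fun w' => (X i (iN N w')).val * tr (ρ' ((tN N)⁻¹ * iN N w'))).sum = D := by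
      rw [hD]; linear_combination h2
    rw [fou_sub] at h3
    rw [← h3]
    congr 1
    apply List.map_congr_left
    intro w' _
    rw [hd]; ring
  -- sum over the characters
  have h4 : ∑ i, (X i (iN N w⁻¹)).val * ((oT N).map fun w' => (X i (iN N w')).val * d w').sum =
      0 := by
    have : ∀ i, (X i (iN N w⁻¹)).val * ((oT N).map fun w' => (X i (iN N w')).val * d w').sum =
        (X i (iN N w⁻¹)).val * D := fun i => by rw [h1 i]
    rw [Finset.sum_congr rfl (fun i _ => this i), ← Finset.sum_mul, hX.orth w⁻¹, zero_mul]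
    rw [map_inv]
    exact fun h => hcl (inv_eq_one.1 h)
  have h5 : ((oT N).map fun w' => (∑ i, (X i (iN N (w⁻¹ * w'))).val) * d w').sum = 0 := by
    rw [← h4]
    have h6 : ∀ i, (X i (iN N w⁻¹)).val * ((oT N).map fun w' => (X i (iN N w')).val * d w').sum =
        ((oT N).map fun w' => (X i (iN N (w⁻¹ * w'))).val * d w').sum := by
      intro i
      rw [fou_mul]
      congr 1
      apply List.map_congr_left
      intro w' _
      rw [map_mul (iN N), map_mul (X i), Units.val_mul]; ring
    rw [Finset.sum_congr rfl (fun i _ => h6 i), fou_swap]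
    congr 1
    apply List.map_congr_left
    intro w' _
    rw [Finset.sum_mul]
  -- only the class of `w` contributes
  have h7 : (oT N).filter (fun w' => decide (cl N w' = cl N w)) = [w] := by
    have h8 := hU N hN (cl N w)
    rw [if_neg hcl, List.countP_eq_length_filter] at h8
    obtain ⟨a, ha⟩ := List.length_eq_one_iff.1 h8
    have hmem : w ∈ (oT N).filter (fun w' => decide (cl N w' = cl N w)) := by
      rw [List.mem_filter]; exact ⟨hw, by simp⟩
    rw [ha, List.mem_singleton] at hmem
    rw [ha, hmem]
  rw [fou_filter (fun w' => decide (cl N w' = cl N w)) _ (oT N), h7] at h5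
  · rw [List.map_cons, List.map_nil, List.sum_cons, List.sum_nil, add_zero, inv_mul_cancel,
      map_one] at h5
    have h9 : ∑ i : Fin c, (X i (1 : GN N)).val = (c : K) := by
      simp
    rw [h9] at h5
    have h10 := (mul_eq_zero.1 h5).resolve_left hX.card
    rw [hd] at h10
    exact sub_eq_zero.1 h10
  · intro w' _ hw'
    have hne : cl N w' ≠ cl N w := by simpa using hw'
    rw [hX.orth (w⁻¹ * w'), zero_mul]
    rw [map_mul, map_inv]
    intro h
    exact hne (inv_mul_eq_one.1 h).symm

end Pool.Agent.F8
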