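import Pool.Agent.Lib.MP_305fdd_al.F8.StmNI
import Pool.Agent.Lib.MP_305fdd_al.F8.P.bn

/-!
# MP_305fdd_al: seven traces determine a triple of matrices up to conjugation
-/

set_option autoImplicit false

namespace Pool.Agent.F8

open Pool.Agent.MP_305fdd_al Pool.Agent.Lib.MP_305fdd_al Pool.Agent.F2X Matrix
open scoped QuadraticAlgebra

section fr3

variable {K : Type} [Field K]

/-- the matrices `1, P, Q, P Q` -/
private def fr3_B (P Q : SL2 K) : Fin 4 → Matrix (Fin 2) (Fin 2) K :=
  ![1, P.val, Q.val, P.val * Q.val]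

private theorem fr3_li (P Q : SL2 K) (h : tr (P * Q * P⁻¹ * Q⁻¹) ≠ 2) :
    LinearIndependent K (fr3_B P Q) := by
  have hP := P.det_coe
  have hQ := Q.det_coe
  rw [Matrix.det_fin_two] at hP hQ
  rw [tr_eq] at h
  simp only [Matrix.SpecialLinearGroup.coe_mul, Matrix.SpecialLinearGroup.coe_inv,
    Matrix.adjugate_fin_two, Matrix.mul_apply, Fin.sum_univ_two, Matrix.of_apply,
    Matrix.cons_val', Matrix.cons_val_zero, Matrix.cons_val_one, Matrix.cons_val_fin_one] at h
  rw [Fintype.linearIndependent_iff]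
  intro c hc
  rw [Fin.sum_univ_four] at hc
  have e : ∀ i j, (c 0 • fr3_B P Q 0 + c 1 • fr3_B P Q 1 + c 2 • fr3_B P Q 2 + c 3 • fr3_B P Q 3) i j
    = 0 := by
    intro i j; rw [hc]; rfl
  have e00 := e 0 0
  have e01 := e 0 1
  have e10 := e 1 0
  have e11 := e 1 1
  simp only [fr3_B, Matrix.add_apply, Matrix.smul_apply, Matrix.cons_val_zero,
    Matrix.cons_val_one, Matrix.cons_val, Matrix.one_apply, Matrix.mul_apply, Fin.sum_univ_two,
    smul_eq_mul] at e00 e01 e10 e11
  generalize P.val 0 0 = a at *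
  generalize P.val 0 1 = b at *
  generalize P.val 1 0 = c' at *
  generalize P.val 1 1 = d at *
  generalize Q.val 0 0 = e' at *
  generalize Q.val 0 1 = f at *
  generalize Q.val 1 0 = g at *
  generalize Q.val 1 1 = k at *
  simp at e00 e01 e10 e11
  have hδ : (b * g - c' * f) * (b * g - c' * f) + (c' * (e' - k) - g * (a - d)) *
      (f * (a - d) - b * (e' - k)) ≠ 0 := by
    intro h0
    apply h
    linear_combination h0 + 2 * (e' * k - f * g) * hP + 2 * hQ
  have h3 : c 3 = 0 := by
    apply (mul_eq_zero.1 (?_ : _ * c 3 = 0)).resolve_left hδ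
    linear_combination (c' * (e' - k) - g * (a - d)) * e01 - (b * (e' - k) - f * (a - d)) * e10 +
      (b * g - f * c') * (e00 - e11)
  rw [h3] at e00 e01 e10 e11
  have h1 : c 1 = 0 := by
    by_cases k1 : b * g - c' * f = 0
    · by_cases k2 : c' * (e' - k) - g * (a - d) = 0
      · exfalso
        apply hδ
        rw [k1, k2]; ring
      · apply (mul_eq_zero.1 (?_ : _ * c 1 = 0)).resolve_left k2
        linear_combination (e' - k) * e10 - g * (e00 - e11)
    · apply (mul_eq_zero.1 (?_ : _ * c 1 = 0)).resolve_left k1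
      linear_combination g * e01 - f * e10
  rw [h1] at e00 e01 e10 e11
  have h2 : c 2 = 0 := by
    by_cases k1 : f = 0
    · by_cases k2 : g = 0
      · have k3 : e' - k ≠ 0 := by
          intro k3
          apply hδ
          rw [k1, k2, k3]; ring
        apply (mul_eq_zero.1 (?_ : _ * c 2 = 0)).resolve_left k3
        linear_combination (e00 - e11)
      · apply (mul_eq_zero.1 (?_ : _ * c 2 = 0)).resolve_left k2
        linear_combination e10
    · apply (mul_eq_zero.1 (?_ : _ * c 2 = 0)).resolve_left k1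
      linear_combination e01
  rw [h2] at e00
  have h0 : c 0 = 0 := by linear_combination e00
  intro i
  fin_cases i
  · exact h0
  · exact h1
  · exact h2
  · exact h3

/-- the basis `1, P, Q, P Q` -/
private noncomputable def fr3_b (P Q : SL2 K) (h : tr (P * Q * P⁻¹ * Q⁻¹) ≠ 2) :
    Module.Basis (Fin 4) K (Matrix (Fin 2) (Fin 2) K) :=
  basisOfLinearIndependentOfCardEqFinrank (fr3_li P Q h) (by simp [Module.finrank_matrix])

private theorem fr3_b_apply (P Q : SL2 K) (h : tr (P * Q * P⁻¹ * Q⁻¹) ≠ 2) (i : Fin 4) :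
    fr3_b P Q h i = fr3_B P Q i := by
  unfold fr3_b
  rw [coe_basisOfLinearIndependentOfCardEqFinrank]

/-- the trace form is non-degenerate -/
private theorem fr3_nd (P Q : SL2 K) (h : tr (P * Q * P⁻¹ * Q⁻¹) ≠ 2)
    (D : Matrix (Fin 2) (Fin 2) K) (hD : ∀ i, (D * fr3_B P Q i).trace = 0) : D = 0 := by
  have h1 : ∀ M : Matrix (Fin 2) (Fin 2) K, (D * M).trace = 0 := by
    intro M
    have : (Matrix.traceLinearMap (Fin 2) K K).comp (LinearMap.mulLeft K D) = 0 := by
      apply (fr3_b P Q h).ext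
      intro i
      rw [fr3_b_apply]
      exact hD i
    exact LinearMap.congr_fun this M
  ext i j
  have := h1 (Matrix.single j i 1)
  rw [Matrix.trace_mul_single] at this
  simpa using this


/-- polynomial identities for two matrices of determinant one -/
private theorem fr3_sq (P : SL2 K) : P.val * P.val = tr P • P.val - 1 := by
  have hP := P.det_coe
  rw [Matrix.det_fin_two] at hP
  rw [tr_eq]
  ext i j
  fin_cases i <;> fin_cases j <;> simp [Matrix.mul_apply, Fin.sum_univ_two]
  · linear_combination -hP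
  · ring
  · ring
  · linear_combination -hP

private theorem fr3_sw (P Q : SL2 K) : Q.val * P.val =
    (tr (P * Q) - tr P * tr Q) • (1 : Matrix (Fin 2) (Fin 2) K) +
      tr Q • P.val + tr P • Q.val - P.val * Q.val := by
  rw [tr_eq, tr_eq, tr_eq]
  simp only [Matrix.SpecialLinearGroup.coe_mul]
  ext i j
  fin_cases i <;> fin_cases j <;> simp [Matrix.mul_apply, Fin.sum_univ_two] <;> ring

private theorem fr3_rel (P Q : SL2 K) :
    P.val * P.val = tr P • P.val - 1 ∧ Q.val * Q.val = tr Q • Q.val - 1 ∧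
    Q.val * P.val = (tr (P * Q) - tr P * tr Q) • (1 : Matrix (Fin 2) (Fin 2) K) +
      tr Q • P.val + tr P • Q.val - P.val * Q.val ∧
    P.val * Q.val * P.val = (-tr Q) • (1 : Matrix (Fin 2) (Fin 2) K) + tr (P * Q) • P.val + Q.val ∧
    P.val * Q.val * Q.val = tr Q • (P.val * Q.val) - P.val := by
  refine ⟨fr3_sq P, fr3_sq Q, fr3_sw P Q, ?_, ?_⟩
  · rw [mul_assoc, fr3_sw P Q]
    simp only [mul_sub, mul_add, mul_smul_comm, mul_one, ← mul_assoc, fr3_sq P, sub_mul,
      smul_mul_assoc, one_mul]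
    module
  · rw [mul_assoc, fr3_sq Q, mul_sub, mul_smul_comm, mul_one]

private theorem fr3_comm (P Q : SL2 K) : tr (P * Q * P⁻¹ * Q⁻¹) =
    tr P * tr P + tr Q * tr Q + tr (P * Q) * tr (P * Q) - tr P * tr Q * tr (P * Q) - 2 := by
  have hP := P.det_coe
  have hQ := Q.det_coe
  rw [Matrix.det_fin_two] at hP hQ
  simp only [tr_eq, Matrix.SpecialLinearGroup.coe_mul, Matrix.SpecialLinearGroup.coe_inv,
    Matrix.adjugate_fin_two, Matrix.mul_apply, Fin.sum_univ_two, Matrix.of_apply,
    Matrix.cons_val', Matrix.cons_val_zero, Matrix.cons_val_one, Matrix.cons_val_fin_one]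
  linear_combination ((P.val 0 0 + P.val 1 1) ^ 2 -
    2 * (P.val 0 0 * P.val 1 1 - P.val 0 1 * P.val 1 0)) * hQ +
    ((Q.val 0 0 + Q.val 1 1) ^ 2 - 2) * hP

end fr3

/-- [F8N fr3] -/
theorem p_fr3 : S_fr3 := by
  intro K _ A₀ A₁ A₂ B₀ B₁ B₂ h0 h1 h2 h01 h02 h12 h012 hA
  have hB : tr (B₀ * B₁ * B₀⁻¹ * B₁⁻¹) ≠ 2 := by
    rw [fr3_comm] at hA ⊢
    rwa [h0, h1, h01] at hA
  obtain ⟨ra0, ra1, ra2, ra3, ra4⟩ := fr3_rel A₀ A₁
  obtain ⟨rb0, rb1, rb2, rb3, rb4⟩ := fr3_rel B₀ B₁
  let T : Matrix (Fin 2) (Fin 2) K →ₗ[K] Matrix (Fin 2) (Fin 2) K :=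
    (fr3_b A₀ A₁ hA).constr K (fr3_B B₀ B₁)
  have hT : ∀ i, T (fr3_B A₀ A₁ i) = fr3_B B₀ B₁ i := by
    intro i
    rw [← fr3_b_apply A₀ A₁ hA]
    exact (fr3_b A₀ A₁ hA).constr_basis K _ i
  have T0 : T 1 = 1 := hT 0
  have T1 : T A₀.val = B₀.val := hT 1
  have T2 : T A₁.val = B₁.val := hT 2
  have T3 : T (A₀.val * A₁.val) = B₀.val * B₁.val := hT 3
  -- right multiplication by `A₀`
  have R0 : ∀ M, T (M * A₀.val) = T M * B₀.val := by
    intro M
    have : T.comp (LinearMap.mulRight K A₀.val) = (LinearMap.mulRight K B₀.val).comp T := by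
      apply (fr3_b A₀ A₁ hA).ext
      intro i
      rw [fr3_b_apply]
      show T (fr3_B A₀ A₁ i * A₀.val) = T (fr3_B A₀ A₁ i) * B₀.val
      fin_cases i
      · show T (1 * A₀.val) = T 1 * B₀.val
        rw [one_mul, T0, one_mul, T1]
      · show T (A₀.val * A₀.val) = T A₀.val * B₀.val
        rw [ra0, T1, rb0, map_sub, map_smul, T0, T1, h0]
      · show T (A₁.val * A₀.val) = T A₁.val * B₀.val
        rw [ra2, T2, rb2]
        simp only [map_sub, map_add, map_smul, T0, T1, T2, T3, h0, h1, h01]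
      · show T (A₀.val * A₁.val * A₀.val) = T (A₀.val * A₁.val) * B₀.val
        rw [ra3, T3, rb3]
        simp only [map_sub, map_add, map_smul, T0, T1, T2, T3, h0, h1, h01]
    exact LinearMap.congr_fun this M
  have R1 : ∀ M, T (M * A₁.val) = T M * B₁.val := by
    intro M
    have : T.comp (LinearMap.mulRight K A₁.val) = (LinearMap.mulRight K B₁.val).comp T := by
      apply (fr3_b A₀ A₁ hA).ext
      intro i
      rw [fr3_b_apply]
      show T (fr3_B A₀ A₁ i * A₁.val) = T (fr3_B A₀ A₁ i) * B₁.val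
      fin_cases i
      · show T (1 * A₁.val) = T 1 * B₁.val
        rw [one_mul, T0, one_mul, T2]
      · show T (A₀.val * A₁.val) = T A₀.val * B₁.val
        rw [T3, T1]
      · show T (A₁.val * A₁.val) = T A₁.val * B₁.val
        rw [ra1, T2, rb1, map_sub, map_smul, T0, T2, h1]
      · show T (A₀.val * A₁.val * A₁.val) = T (A₀.val * A₁.val) * B₁.val
        rw [ra4, T3, rb4, map_sub, map_smul, T1, T3, h1]
    exact LinearMap.congr_fun this M
  have hTm : ∀ M N, T (M * N) = T M * T N := by
    intro M N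
    have : T.comp (LinearMap.mulLeft K M) = (LinearMap.mulLeft K (T M)).comp T := by
      apply (fr3_b A₀ A₁ hA).ext
      intro i
      rw [fr3_b_apply]
      show T (M * fr3_B A₀ A₁ i) = T M * T (fr3_B A₀ A₁ i)
      fin_cases i
      · show T (M * 1) = T M * T 1
        rw [mul_one, T0, mul_one]
      · show T (M * A₀.val) = T M * T A₀.val
        rw [R0, T1]
      · show T (M * A₁.val) = T M * T A₁.val
        rw [R1, T2]
      · show T (M * (A₀.val * A₁.val)) = T M * T (A₀.val * A₁.val)
        rw [← mul_assoc, R1, R0, T3, mul_assoc]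
    exact LinearMap.congr_fun this N
  have hTt : ∀ M, (T M).trace = M.trace := by
    intro M
    have : (Matrix.traceLinearMap (Fin 2) K K).comp T = Matrix.traceLinearMap (Fin 2) K K := by
      apply (fr3_b A₀ A₁ hA).ext
      intro i
      rw [fr3_b_apply]
      show (T (fr3_B A₀ A₁ i)).trace = (fr3_B A₀ A₁ i).trace
      fin_cases i
      · show (T 1).trace = (1 : Matrix (Fin 2) (Fin 2) K).trace
        rw [T0]
      · show (T A₀.val).trace = A₀.val.trace
        rw [T1]; exact h0.symm
      · show (T A₁.val).trace = A₁.val.trace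
        rw [T2]; exact h1.symm
      · show (T (A₀.val * A₁.val)).trace = (A₀.val * A₁.val).trace
        rw [T3]; exact h01.symm
    exact LinearMap.congr_fun this M
  have TA2 : T A₂.val = B₂.val := by
    rw [← sub_eq_zero]
    apply fr3_nd B₀ B₁ hB
    intro i
    rw [← hT i, sub_mul, Matrix.trace_sub, ← hTm, hTt, hT i, sub_eq_zero]
    fin_cases i
    · show (A₂.val * 1).trace = (B₂.val * 1).trace
      rw [mul_one, mul_one]; exact h2
    · show (A₂.val * A₀.val).trace = (B₂.val * B₀.val).trace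
      rw [Matrix.trace_mul_comm, Matrix.trace_mul_comm B₂.val]; exact h02
    · show (A₂.val * A₁.val).trace = (B₂.val * B₁.val).trace
      rw [Matrix.trace_mul_comm, Matrix.trace_mul_comm B₂.val]; exact h12
    · show (A₂.val * (A₀.val * A₁.val)).trace = (B₂.val * (B₀.val * B₁.val)).trace
      rw [Matrix.trace_mul_comm, Matrix.trace_mul_comm B₂.val]; exact h012
  -- the two representations of the free group
  let r : FreeGroup (Fin 3) →* SL2 K := FreeGroup.lift ![A₀, A₁, A₂]
  let s : FreeGroup (Fin 3) →* SL2 K := FreeGroup.lift ![B₀, B₁, B₂]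
  have hrs : ∀ g, T (r g).val = (s g).val := by
    have hinv : ∀ g, T (r g).val = (s g).val → T (r g⁻¹).val = (s g⁻¹).val := by
      intro g hg
      have e1 : T (r g⁻¹).val * T (r g).val = 1 := by
        rw [← hTm]
        have : (r g⁻¹).val * (r g).val = 1 := by
          have h := congrArg (fun x : SL2 K => x.val) (inv_mul_cancel (r g))
          rw [← map_inv] at h
          exact h
        rw [this, T0]
      have e2 : (s g).val * (s g⁻¹).val = 1 := by
        have h := congrArg (fun x : SL2 K => x.val) (mul_inv_cancel (s g))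
        rw [← map_inv] at h
        exact h
      calc T (r g⁻¹).val = T (r g⁻¹).val * ((s g).val * (s g⁻¹).val) := by rw [e2, mul_one]
        _ = (T (r g⁻¹).val * T (r g).val) * (s g⁻¹).val := by rw [hg, mul_assoc]
        _ = (s g⁻¹).val := by rw [e1, one_mul]
    have hof : ∀ i : Fin 3, T (r (FreeGroup.of i)).val = (s (FreeGroup.of i)).val := by
      intro i
      show T (FreeGroup.lift ![A₀, A₁, A₂] (FreeGroup.of i)).val =
        (FreeGroup.lift ![B₀, B₁, B₂] (FreeGroup.of i)).val
      rw [FreeGroup.lift_apply_of, FreeGroup.lift_apply_of]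
      fin_cases i
      · exact T1
      · exact T2
      · exact TA2
    intro g
    induction g using FreeGroup.induction_on with
    | C1 => rw [map_one, map_one]; exact T0
    | of i => exact hof i
    | inv_of i h => exact hinv _ h
    | mul x y hx hy =>
      rw [map_mul, map_mul]
      show T ((r x).val * (r y).val) = (s x).val * (s y).val
      rw [hTm, hx, hy]
  have htr : ∀ g, tr (r g) = tr (s g) := by
    intro g
    show (r g).val.trace = (s g).val.trace
    rw [← hrs, hTt]
  have hirr : Irr s := by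
    refine ⟨FreeGroup.of 0, FreeGroup.of 1, ?_⟩
    rw [map_mul, map_mul, map_mul, map_inv, map_inv]
    have e0 : s (FreeGroup.of 0) = B₀ := by
      show FreeGroup.lift ![B₀, B₁, B₂] (FreeGroup.of 0) = B₀
      rw [FreeGroup.lift_apply_of]; rfl
    have e1 : s (FreeGroup.of 1) = B₁ := by
      show FreeGroup.lift ![B₀, B₁, B₂] (FreeGroup.of 1) = B₁
      rw [FreeGroup.lift_apply_of]; rfl
    rw [e0, e1]
    exact hB
  obtain ⟨X, hX⟩ := H.p_bn (FreeGroup (Fin 3)) K r s htr hirr
  refine ⟨X, ?_, ?_, ?_⟩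
  · have := hX (FreeGroup.of 0)
    have e0 : r (FreeGroup.of 0) = A₀ := by
      show FreeGroup.lift ![A₀, A₁, A₂] (FreeGroup.of 0) = A₀
      rw [FreeGroup.lift_apply_of]; rfl
    have e1 : s (FreeGroup.of 0) = B₀ := by
      show FreeGroup.lift ![B₀, B₁, B₂] (FreeGroup.of 0) = B₀
      rw [FreeGroup.lift_apply_of]; rfl
    rwa [e0, e1] at this
  · have := hX (FreeGroup.of 1)
    have e0 : r (FreeGroup.of 1) = A₁ := by
      show FreeGroup.lift ![A₀, A₁, A₂] (FreeGroup.of 1) = A₁
      rw [FreeGroup.lift_apply_of]; rfl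
    have e1 : s (FreeGroup.of 1) = B₁ := by
      show FreeGroup.lift ![B₀, B₁, B₂] (FreeGroup.of 1) = B₁
      rw [FreeGroup.lift_apply_of]; rfl
    rwa [e0, e1] at this
  · have := hX (FreeGroup.of 2)
    have e0 : r (FreeGroup.of 2) = A₂ := by
      show FreeGroup.lift ![A₀, A₁, A₂] (FreeGroup.of 2) = A₂
      rw [FreeGroup.lift_apply_of]; rfl
    have e1 : s (FreeGroup.of 2) = B₂ := by
      show FreeGroup.lift ![B₀, B₁, B₂] (FreeGroup.of 2) = B₂
      rw [FreeGroup.lift_apply_of]; rfl
    rwa [e0, e1] at this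

end Pool.Agent.F8
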