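import Pool.Agent.Lib.MP_305fdd_al.F8.StmNI

/-!
# MP_305fdd_al, cyclic covers of the figure-eight knot complement: the three loops generate
-/

set_option autoImplicit false

namespace Pool.Agent.F8

open Pool.Agent.MP_305fdd_al Pool.Agent.Lib.MP_305fdd_al Pool.Agent.F2X
open scoped QuadraticAlgebra

private theorem gen_inc (n m : ℕ) (w : F) :
    inc n m (gl (n * m) w) = (tN n ^ m)⁻¹ * iN n w := by
  unfold gl
  rw [map_mul, map_inv, inc_tN, inc_iN]

private theorem gen_top (n : ℕ) :
    Subgroup.closure {gl n w1, gl n w2, gl n w3} = (⊤ : Subgroup (GN n)) := by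
  have h1 : gl n w1 ∈ Subgroup.closure {gl n w1, gl n w2, gl n w3} :=
    Subgroup.subset_closure (by simp)
  have h2 : gl n w2 ∈ Subgroup.closure {gl n w1, gl n w2, gl n w3} :=
    Subgroup.subset_closure (by simp)
  have h3 : gl n w3 ∈ Subgroup.closure {gl n w1, gl n w2, gl n w3} :=
    Subgroup.subset_closure (by simp)
  set H : Subgroup (GN n) := Subgroup.closure {gl n w1, gl n w2, gl n w3} with hH
  have hga : iN n ga ∈ H := by
    have h : (gl n w2)⁻¹ * gl n w3 = iN n ga := by
      have e : w3 = w2 * ga := rfl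
      unfold gl
      rw [e, map_mul (iN n) w2 ga]
      group
    rw [← h]
    exact H.mul_mem (H.inv_mem h2) h3
  have hgx : iN n (ga * x0) ∈ H := by
    have h : (gl n w1)⁻¹ * gl n w2 = iN n (ga * x0) := by
      have e : w2 = w1 * (ga * x0) := by unfold w2 w1; group
      unfold gl
      rw [e, map_mul (iN n) w1 (ga * x0)]
      group
    rw [← h]
    exact H.mul_mem (H.inv_mem h1) h2
  have hx : iN n x0 ∈ H := by
    have h : (iN n ga)⁻¹ * iN n (ga * x0) = iN n x0 := by
      rw [map_mul]; group
    rw [← h]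
    exact H.mul_mem (H.inv_mem hga) hgx
  have hgb : iN n gb ∈ H := by
    have h : iN n ga * (iN n x0)⁻¹ = iN n gb := by
      rw [← map_inv, ← map_mul]
      congr 1
      unfold x0; group
    rw [← h]
    exact H.mul_mem hga (H.inv_mem hx)
  have hF : ∀ w : F, iN n w ∈ H := by
    intro w
    have h : H.comap (iN n) = ⊤ := by
      rw [eq_top_iff, ← FreeGroup.closure_range_of, Subgroup.closure_le]
      rintro _ ⟨i, rfl⟩
      fin_cases i
      · exact hga
      · exact hgb
    have : w ∈ H.comap (iN n) := by rw [h]; trivial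
    exact this
  have ht : tN n ∈ H := by
    have h : iN n w1 * (gl n w1)⁻¹ = tN n := by
      unfold gl; group
    rw [← h]
    exact H.mul_mem (hF w1) (H.inv_mem h1)
  rw [eq_top_iff]
  intro g _
  obtain ⟨w, k, rfl⟩ := GN_cases g
  exact H.mul_mem (hF w) (H.zpow_mem ht k)

theorem p_gen : S_gen := by
  intro n
  refine ⟨gen_top n, ?_, ?_, ?_⟩
  · intro w
    rw [gen_inc]
    unfold gl
    rw [pow_one]
  · intro w w'
    rw [gen_inc, map_mul, ← tN_conj]
    unfold gl
    group
  · intro w w' w''
    rw [gen_inc, map_mul, ← tN_conj, map_mul, ← tN_conj]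
    unfold gl
    group

end Pool.Agent.F8
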