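import Pool.Agent.Lib.MP_305fdd_al.F8.StmNI

/-!
# MP_305fdd_al, cyclic covers of the figure-eight knot complement: [F8N ir] irreducibility of `rN`
-/

set_option autoImplicit false

namespace Pool.Agent.F8

open Pool.Agent.MP_305fdd_al Pool.Agent.Lib.MP_305fdd_al Pool.Agent.F2X
open scoped QuadraticAlgebra

private theorem irn_tr_comm {R : Type} [CommRing R] (A B : SL2 R) : tr (A * B) = tr (B * A) := by
  unfold tr
  rw [Matrix.SpecialLinearGroup.coe_mul, Matrix.SpecialLinearGroup.coe_mul,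
    Matrix.trace_mul_comm]

private theorem irn_tr_conj {R : Type} [CommRing R] (A B : SL2 R) : tr (A * B * A⁻¹) = tr B := by
  rw [irn_tr_comm, ← mul_assoc, inv_mul_cancel, one_mul]

private theorem irn_ma_pow {R : Type} [CommRing R] (n : ℕ) :
    (ma R ^ n).val = !![1, (n : R); 0, 1] := by
  induction n with
  | zero =>
    rw [pow_zero, Nat.cast_zero]
    ext i j
    fin_cases i <;> fin_cases j <;> simp
  | succ n ih =>
    rw [pow_succ, Matrix.SpecialLinearGroup.coe_mul, ih]
    ext i j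
    fin_cases i <;> fin_cases j <;> simp [ma, add_comm]

private theorem irn_comm {R : Type} [CommRing R] (T Y : SL2 R) (n : R)
    (hT : T.val = !![1, n; 0, 1]) :
    tr (T⁻¹ * Y * T * Y⁻¹) = 2 + n * n * (Y.val 1 0 * Y.val 1 0) := by
  have hd := Y.2
  rw [Matrix.det_fin_two] at hd
  have hY : Y.val = !![Y.val 0 0, Y.val 0 1; Y.val 1 0, Y.val 1 1] := Matrix.eta_fin_two _
  rw [tr_eq]
  simp only [Matrix.SpecialLinearGroup.coe_mul, Matrix.SpecialLinearGroup.coe_inv, hT]
  rw [hY]
  generalize Y.val 0 0 = a at *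
  generalize Y.val 0 1 = b at *
  generalize Y.val 1 0 = c at *
  generalize Y.val 1 1 = d at *
  simp [Matrix.adjugate_fin_two, Matrix.mul_apply, Fin.sum_univ_two]
  linear_combination 2 * hd

/-- Piece irn -/
theorem p_irn : S_irn := by
  intro R _ n w hw
  have hi : ∀ g : F, rN n w hw (iN n g) = rho8 w hw (SemidirectProduct.inl g) := by
    intro g
    show rho8 w hw (toG8 n (iN n g)) = _
    rw [toG8_iN]
  have hu : rN n w hw (iN n ga) = mb w * (ma R)⁻¹ := by rw [hi]; exact rho8_uu w hw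
  have hv : rN n w hw (iN n gb) = (ma R)⁻¹ * mb w := by rw [hi]; exact rho8_vv w hw
  have ht : rN n w hw (tN n) = ma R ^ n := by
    show rho8 w hw (toG8 n (tN n)) = _
    rw [toG8_tN, map_pow, rho8_aa]
  constructor
  · rw [map_mul, map_mul, map_mul, map_inv, map_inv, map_mul, map_mul, map_mul, map_inv, map_inv,
      hu, hv, tr_eq, Matrix.SpecialLinearGroup.coe_mul, Matrix.SpecialLinearGroup.coe_mul,
      Matrix.SpecialLinearGroup.coe_mul (mb w * (ma R)⁻¹) ((ma R)⁻¹ * mb w),
      Matrix.SpecialLinearGroup.coe_inv, matVi, matU, matV]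
    simp [Matrix.adjugate_fin_two, Matrix.mul_apply, Fin.sum_univ_two]
    linear_combination (-4 * (w - 1)) * hw
  · have hw2 : w2 = w1 * w1 := by unfold w2 w1; group
    have e1 : rN n w hw (gl n w1 * gl n w2 * (gl n w1)⁻¹ * (gl n w2)⁻¹) =
        ((ma R ^ n)⁻¹ * rN n w hw (iN n w1)) * ((ma R ^ n)⁻¹ * rN n w hw (iN n w1) *
          (ma R ^ n) * (rN n w hw (iN n w1))⁻¹) * ((ma R ^ n)⁻¹ * rN n w hw (iN n w1))⁻¹ := by
      unfold gl
      rw [hw2]
      simp only [map_mul, map_inv, ht]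
      group
    rw [e1, irn_tr_conj, irn_comm _ _ _ (irn_ma_pow n)]
    have hc : (rN n w hw (iN n w1)).val 1 0 = w * w := by
      have h1 : rN n w hw (iN n w1) = (mb w * (ma R)⁻¹) * ((ma R)⁻¹ * mb w)⁻¹ *
          (mb w * (ma R)⁻¹) := by
        unfold w1 x0
        simp only [map_mul, map_inv, hu, hv]
        group
      rw [h1, Matrix.SpecialLinearGroup.coe_mul,
        Matrix.SpecialLinearGroup.coe_mul (mb w * (ma R)⁻¹) (((ma R)⁻¹ * mb w)⁻¹), matVi, matU]
      simp [Matrix.mul_apply, Fin.sum_univ_two]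
      linear_combination (-w) * hw
    rw [hc]
    linear_combination ((n : R) * n * (w * w - w)) * hw

end Pool.Agent.F8
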