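import Pool.Agent.Lib.MP_305fdd_al.F8.StmNI

/-!
# MP_305fdd_al, block NI: the eigenvalues on the quotient
-/

set_option autoImplicit false

namespace Pool.Agent.F8

open Pool.Agent.MP_305fdd_al Pool.Agent.Lib.MP_305fdd_al Pool.Agent.F2X

/-- eigenvalues of an endomorphism of a plane -/
private lemma lin_plane {K Q : Type} [Field K] [AddCommGroup Q] [Module K Q]
    [FiniteDimensional K Q] (hQ : Module.finrank K Q = 2) (A : Q →ₗ[K] Q) (τ : K) :
    (∃ c : Q, c ≠ 0 ∧ A c - τ • c = 0) ↔
      τ * τ - LinearMap.trace K Q A * τ + LinearMap.det A = 0 := by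
  have h1 : (∃ c : Q, c ≠ 0 ∧ A c - τ • c = 0) ↔ LinearMap.det (A - τ • LinearMap.id) = 0 := by
    rw [LinearMap.det_eq_zero_iff_ker_ne_bot, Submodule.ne_bot_iff]
    constructor
    · rintro ⟨c, hc, h⟩
      exact ⟨c, by simpa using h, hc⟩
    · rintro ⟨c, h, hc⟩
      exact ⟨c, hc, by simpa using h⟩
  rw [h1]
  let b : Module.Basis (Fin 2) K Q := Module.finBasisOfFinrankEq K Q hQ
  have h2 : LinearMap.det (A - τ • LinearMap.id) =
      τ * τ - LinearMap.trace K Q A * τ + LinearMap.det A := by
    rw [← LinearMap.det_toMatrix b, ← LinearMap.det_toMatrix b A,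
      LinearMap.trace_eq_matrix_trace K b A, map_sub, map_smul, LinearMap.toMatrix_id,
      Matrix.det_fin_two, Matrix.det_fin_two, Matrix.trace_fin_two]
    simp
    ring
  rw [h2]

theorem p_lin (htrq : S_trq) : S_lin := by
  intro K _ U δ S hδ hU hS hdet τ
  obtain ⟨W, hW⟩ : ∃ W, W = LinearMap.range δ := ⟨_, rfl⟩
  have he : W ≤ W.comap U := by
    rw [hW]
    rintro _ ⟨y, rfl⟩
    rw [Submodule.mem_comap, hU]
    exact ⟨_, rfl⟩
  subst hW
  let e : (Fin 2 → K) ≃ₗ[K] LinearMap.range δ := LinearEquiv.ofInjective δ hδ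
  have hconj : U.restrict he = e.conj (Matrix.toLin' S) := by
    apply LinearMap.ext
    intro x
    obtain ⟨y, rfl⟩ := e.surjective x
    rw [LinearEquiv.conj_apply_apply, e.symm_apply_apply]
    apply Subtype.ext
    show U (δ y) = δ (S.mulVec y)
    exact hU y
  have htrW : LinearMap.trace K (LinearMap.range δ) (U.restrict he) = S.trace := by
    rw [hconj, LinearMap.trace_conj', Matrix.trace_toLin'_eq]
  have hdetW : LinearMap.det (U.restrict he) = 1 := by
    rw [hconj, LinearEquiv.conj_apply, LinearMap.comp_assoc, LinearMap.det_conj,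
      LinearMap.det_toLin', hS]
  have h1 := htrq K (E2 K) (LinearMap.range δ) U he
  have h2 := LinearMap.det_eq_det_mul_det (LinearMap.range δ) U he
  rw [hdetW, hdet, one_mul] at h2
  have hrank : Module.finrank K (E2 K ⧸ LinearMap.range δ) = 2 := by
    have h3 := Submodule.finrank_quotient_add_finrank (LinearMap.range δ)
    have h4 : Module.finrank K (LinearMap.range δ) = 2 := by
      rw [← LinearEquiv.finrank_eq e]; simp
    have h5 : Module.finrank K (E2 K) = 4 := by
      unfold E2; simp
    omega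
  have h6 := lin_plane hrank ((LinearMap.range δ).mapQ (LinearMap.range δ) U he) τ
  rw [← h2] at h6
  have h7 : LinearMap.trace K (E2 K ⧸ LinearMap.range δ)
      ((LinearMap.range δ).mapQ (LinearMap.range δ) U he) =
      LinearMap.trace K _ U - S.trace := by
    rw [h1, htrW]; ring
  rw [h7] at h6
  rw [← h6]
  constructor
  · rintro ⟨c, hc, h⟩
    refine ⟨Submodule.Quotient.mk c, ?_, ?_⟩
    · intro h0
      exact hc ((Submodule.Quotient.mk_eq_zero _).1 h0)
    · rw [Submodule.mapQ_apply]
      show (Submodule.Quotient.mk (U c) : E2 K ⧸ LinearMap.range δ) -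
        τ • Submodule.Quotient.mk c = 0
      rw [← Submodule.Quotient.mk_smul, ← Submodule.Quotient.mk_sub,
        Submodule.Quotient.mk_eq_zero]
      exact h
  · rintro ⟨c, hc, h⟩
    obtain ⟨c, rfl⟩ := Submodule.Quotient.mk_surjective _ c
    refine ⟨c, ?_, ?_⟩
    · intro h0
      exact hc ((Submodule.Quotient.mk_eq_zero _).2 h0)
    · rw [Submodule.mapQ_apply] at h
      rw [← Submodule.Quotient.mk_eq_zero, Submodule.Quotient.mk_sub,
        Submodule.Quotient.mk_smul]
      exact h

end Pool.Agent.F8
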