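import Pool.Agent.Lib.MP_305fdd_al.F8.StmNI

/-!
# MP_305fdd_al, block NI, piece [F8N n1a]: from an affine representation to the quadratic equation
-/



set_option autoImplicit false

namespace Pool.Agent.F8

open Pool.Agent.MP_305fdd_al Pool.Agent.Lib.MP_305fdd_al Pool.Agent.F2X
open scoped QuadraticAlgebra

noncomputable section

/-- the coboundary of `y` -/
private def n1a_cob {G K : Type} [Group G] [CommRing K] (ρ : G →* SL2 K) (σ : G →* Kˣ)
    (y : Fin 2 → K) : G →* Q2 K where
  toFun g := ⟨σ g, ρ g, y - (σ g).val • (ρ g).val.mulVec y⟩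
  map_one' := by
    apply Q2.ext
    · simp
    · simp
    · simp
  map_mul' g h := by
    apply Q2.ext
    · simp
    · simp
    · simp only [Q2.mul_v, map_mul, Units.val_mul, Matrix.SpecialLinearGroup.coe_mul,
        Matrix.mulVec_sub, Matrix.mulVec_smul, smul_sub, smul_smul, Matrix.mulVec_mulVec]
      abel

private theorem n1a_ext {G : Type} [Group G] {f g : F →* G} (hx : f x0 = g x0)
    (hu : f ga = g ga) : f = g := by
  apply hom_ext hu
  have h : gb = ga * x0⁻¹ := by unfold x0; group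
  rw [h, map_mul, map_mul, map_inv, map_inv, hx, hu]

private theorem n1a_sum {K : Type} [CommRing K] (l : List F)
    (m : F → Matrix (Fin 2) (Fin 2) K) (y : Fin 2 → K) :
    (l.map fun w => (m w).mulVec y).sum = (l.map m).sum.mulVec y := by
  induction l with
  | nil => simp
  | cons a l ih => simp only [List.map_cons, List.sum_cons, ih, Matrix.add_mulVec]

theorem n1a_trace_inv {K : Type} [CommRing K] (T : SL2 K) : (T⁻¹).val.trace = T.val.trace := by
  rw [Matrix.SpecialLinearGroup.coe_inv, Matrix.trace_fin_two, Matrix.adjugate_fin_two,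
    Matrix.trace_fin_two]
  simp
  ring

private theorem n1a_det {K : Type} [Field K] (A : SL2 K) :
    (A.val - 1).det = 2 - tr A := by
  have h := A.2
  rw [Matrix.det_fin_two] at h
  rw [Matrix.det_fin_two, tr_eq]
  simp
  linear_combination h

theorem p_n1a (hocv : S_ocv) (hlin : S_lin) (hod : S_od) (hot : S_ot) (hncb : S_ncb) :
    S_n1a := by
  intro K _ N ρ σ hirr hex
  obtain ⟨Θ, hm, ht, hnc⟩ := hex
  have hΘm : ∀ g, (Θ g).m = ρ g := fun g => DFunLike.congr_fun hm g
  have hΘt : ∀ g, (Θ g).t = σ g := fun g => DFunLike.congr_fun ht g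
  obtain ⟨g, h, hgh⟩ := hirr
  set k : F := g * h * g⁻¹ * h⁻¹ with hk
  have hk1 : σ (iN N k) = 1 := by
    rw [hk]; simp only [map_mul, map_inv]
    rw [mul_comm (σ (iN N g)) (σ (iN N h))]; group
  have hk2 : tr (ρ (iN N k)) ≠ 2 := hgh
  have hk3 : (Q2.X (Θ (iN N k))).det ≠ 0 := by
    unfold Q2.X
    rw [hΘm, hΘt, hk1, Units.val_one, one_smul, n1a_det]
    exact fun h => hk2 (sub_eq_zero.1 h).symm
  -- the representation on `F`
  let ρF : F →* SL2 K := ρ.comp (iN N)
  let σF : F →* Kˣ := σ.comp (iN N)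
  let m : F →* Matrix (Fin 2) (Fin 2) K :=
    { toFun := fun w => (σF w).val • (ρF w).val
      map_one' := by simp
      map_mul' := fun a b => by
        simp only [map_mul, Units.val_mul, Matrix.SpecialLinearGroup.coe_mul, Matrix.smul_mul,
          Matrix.mul_smul, smul_smul]
        rw [mul_comm (σF b).val] }
  have hmdef : ∀ w, m w = (σF w).val • (ρF w).val := fun w => rfl
  set T : SL2 K := ρ (tN N) with hT
  set τ : Kˣ := σ (tN N) with hτ
  let δ : (Fin 2 → K) →ₗ[K] E2 K :=
    { toFun := fun y => (y - (m x0).mulVec y, y - (m ga).mulVec y)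
      map_add' := fun y z => by
        simp only [Matrix.mulVec_add, Prod.mk_add_mk, Prod.mk.injEq]
        constructor <;> abel
      map_smul' := fun r y => by
        simp only [Matrix.mulVec_smul, RingHom.id_apply, Prod.smul_mk, smul_sub] }
  have hδ : ∀ y, δ y = (y - (m x0).mulVec y, y - (m ga).mulVec y) := fun y => rfl
  -- values of coboundaries
  have hcobv : ∀ y w, (n1a_cob ρF σF y w).v = y - (m w).mulVec y := by
    intro y w
    show y - (σF w).val • (ρF w).val.mulVec y = _
    rw [hmdef, Matrix.smul_mulVec]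
  -- conjugation by `t`
  have hphiρ : ∀ w, (ρF ((phi ^ N) w)) = T * ρF w * T⁻¹ := by
    intro w
    show ρ (iN N ((phi ^ N) w)) = _
    rw [← tN_conj, map_mul, map_mul, map_inv]; rfl
  have hphiσ : ∀ w, (σF ((phi ^ N) w)) = σF w := by
    intro w
    show σ (iN N ((phi ^ N) w)) = _
    rw [← tN_conj, map_mul, map_mul, map_inv, mul_comm (σ (tN N)), mul_inv_cancel_right]; rfl
  have hphim : ∀ w, (T⁻¹).val * m ((phi ^ N) w) = m w * (T⁻¹).val := by
    intro w
    rw [hmdef, hmdef, hphiρ, hphiσ, Matrix.mul_smul, Matrix.smul_mul,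
      ← Matrix.SpecialLinearGroup.coe_mul, ← Matrix.SpecialLinearGroup.coe_mul]
    congr 2
    group
  -- Fox formula
  have hfox : ∀ (f : F →* Q2 K), (∀ w, (f w).m = ρF w) → (∀ w, (f w).t = σF w) → ∀ i,
      (f ((phi ^ N) (lt i))).v = (Jm N m i false).mulVec (f x0).v +
        (Jm N m i true).mulVec (f ga).v := by
    intro f h1 h2 i
    rw [hocv K f N i]
    unfold Jm
    rw [← n1a_sum, ← n1a_sum]
    simp only [h1, h2, hmdef, Matrix.smul_mulVec]
  have hUdef : ∀ c : E2 K, opU N m (T⁻¹).val c =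
      ((T⁻¹).val.mulVec ((Jm N m false false).mulVec c.1 + (Jm N m false true).mulVec c.2),
       (T⁻¹).val.mulVec ((Jm N m true false).mulVec c.1 + (Jm N m true true).mulVec c.2)) :=
    fun c => rfl
  have hUf : ∀ (f : F →* Q2 K), (∀ w, (f w).m = ρF w) → (∀ w, (f w).t = σF w) →
      opU N m (T⁻¹).val ((f x0).v, (f ga).v) =
        ((T⁻¹).val.mulVec (f ((phi ^ N) x0)).v, (T⁻¹).val.mulVec (f ((phi ^ N) ga)).v) := by
    intro f h1 h2
    rw [hUdef]
    show ((T⁻¹).val.mulVec ((Jm N m false false).mulVec (f x0).v +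
      (Jm N m false true).mulVec (f ga).v), (T⁻¹).val.mulVec ((Jm N m true false).mulVec (f x0).v +
      (Jm N m true true).mulVec (f ga).v)) = _
    rw [← hfox f h1 h2 false, ← hfox f h1 h2 true]
    rfl
  have hUδ : ∀ y, opU N m (T⁻¹).val (δ y) = δ ((T⁻¹).val.mulVec y) := by
    intro y
    have h1 := hUf (n1a_cob ρF σF y) (fun w => rfl) (fun w => rfl)
    rw [hcobv, hcobv, hcobv, hcobv] at h1
    rw [hδ, h1, hδ]
    simp only [Matrix.mulVec_sub, Matrix.mulVec_mulVec, hphim]
  -- the cocycle of `Θ`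
  have hv : ∀ w, (T⁻¹).val.mulVec (Θ (iN N ((phi ^ N) w))).v =
      τ.val • (Θ (iN N w)).v + ((T⁻¹).val.mulVec (Θ (tN N)).v -
        (m w).mulVec ((T⁻¹).val.mulVec (Θ (tN N)).v)) := by
    intro w
    have h1 : tN N * iN N w = iN N ((phi ^ N) w) * tN N := by
      rw [← tN_conj]; group
    have h2 := congrArg (fun g => (Θ g).v) h1
    simp only [map_mul, Q2.mul_v, hΘm, hΘt] at h2
    have h3 : (Θ (iN N ((phi ^ N) w))).v = (Θ (tN N)).v + τ.val • T.val.mulVec (Θ (iN N w)).v
        - (m ((phi ^ N) w)).mulVec (Θ (tN N)).v := by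
      rw [h2, hmdef, Matrix.smul_mulVec]
      exact (add_sub_cancel_right _ _).symm
    rw [h3, Matrix.mulVec_sub, Matrix.mulVec_add, Matrix.mulVec_smul, Matrix.mulVec_mulVec,
      Matrix.mulVec_mulVec, hphim, ← Matrix.SpecialLinearGroup.coe_mul, inv_mul_cancel,
      Matrix.SpecialLinearGroup.coe_one, Matrix.one_mulVec, ← Matrix.mulVec_mulVec]
    abel
  set c : E2 K := ((Θ (iN N x0)).v, (Θ (iN N ga)).v) with hc
  have hUc : opU N m (T⁻¹).val c = τ.val • c + δ ((T⁻¹).val.mulVec (Θ (tN N)).v) := by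
    have h1 := hUf (Θ.comp (iN N)) (fun w => hΘm _) (fun w => hΘt _)
    rw [hc]
    refine h1.trans ?_
    show ((T⁻¹).val.mulVec (Θ (iN N ((phi ^ N) x0))).v,
      (T⁻¹).val.mulVec (Θ (iN N ((phi ^ N) ga))).v) = _
    rw [hv, hv, hδ]
    rfl
  have hδinj : Function.Injective δ := by
    rw [injective_iff_map_eq_zero]
    intro y hy
    rw [hδ, Prod.mk_eq_zero] at hy
    have h1 : n1a_cob ρF σF y = n1a_cob ρF σF 0 := by
      apply n1a_ext
      · apply Q2.ext
        · rfl
        · rfl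
        · rw [hcobv, hcobv, hy.1]; simp
      · apply Q2.ext
        · rfl
        · rfl
        · rw [hcobv, hcobv, hy.2]; simp
    have h2 := congrArg (fun f => (f k).v) h1
    simp only [hcobv, Matrix.mulVec_zero, sub_zero] at h2
    have h3 : (m k - 1).mulVec y = 0 := by
      rw [Matrix.sub_mulVec, Matrix.one_mulVec, ← neg_sub, h2, neg_zero]
    have h4 : (m k - 1).det ≠ 0 := by
      rw [hmdef]
      have : Q2.X (Θ (iN N k)) = (σF k).val • (ρF k).val - 1 := by
        unfold Q2.X
        rw [hΘm, hΘt]; rfl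
      rw [← this]; exact hk3
    by_contra hne
    exact h4 (Matrix.exists_mulVec_eq_zero_iff.1 ⟨y, hne, h3⟩)
  have hcnot : c ∉ LinearMap.range δ := by
    rintro ⟨y, hy⟩
    have h0 : Θ.comp (iN N) = n1a_cob ρF σF y := by
      rw [hδ, hc, Prod.mk.injEq] at hy
      apply n1a_ext
      · apply Q2.ext
        · exact hΘt _
        · exact hΘm _
        · rw [hcobv]; exact hy.1.symm
      · apply Q2.ext
        · exact hΘt _
        · exact hΘm _
        · rw [hcobv]; exact hy.2.symm
    have h1 : δ ((T⁻¹).val.mulVec y - τ.val • y - (T⁻¹).val.mulVec (Θ (tN N)).v) = 0 := by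
      rw [map_sub, map_sub, ← hUδ, hy, hUc, map_smul, hy]
      abel
    have h2 : (T⁻¹).val.mulVec y - τ.val • y - (T⁻¹).val.mulVec (Θ (tN N)).v = 0 :=
      hδinj (by rw [h1, map_zero])
    have h3 : (Θ (tN N)).v = y - τ.val • T.val.mulVec y := by
      have h4 := congrArg (fun z => T.val.mulVec z) h2
      simp only [Matrix.mulVec_sub, Matrix.mulVec_smul, Matrix.mulVec_mulVec,
        ← Matrix.SpecialLinearGroup.coe_mul, mul_inv_cancel, Matrix.SpecialLinearGroup.coe_one,
        Matrix.one_mulVec, Matrix.mulVec_zero] at h4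
      rw [sub_eq_zero] at h4
      exact h4.symm
    have h5 : Θ = n1a_cob ρ σ y := by
      apply homN_ext
      · intro w
        exact DFunLike.congr_fun h0 w
      · apply Q2.ext
        · exact hΘt _
        · exact hΘm _
        · exact h3
    refine ((hncb K (GN N) Θ (iN N k) hk3).1 hnc) ⟨y, fun g => ?_⟩
    have h6 : (Θ g).v = y - (σ g).val • (ρ g).val.mulVec y := by
      conv_lhs => rw [h5]
      rfl
    rw [h6]
    unfold Q2.X
    rw [hΘt, hΘm, Matrix.sub_mulVec, Matrix.smul_mulVec, Matrix.one_mulVec, neg_sub]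
  have hmain := (hlin K (opU N m (T⁻¹).val) δ (T⁻¹).val hδinj hUδ (T⁻¹).2
    (by rw [hod]; rw [(T⁻¹).2, one_mul]) τ.val).1 ⟨c, hcnot, ⟨(T⁻¹).val.mulVec (Θ (tN N)).v, by
      rw [hUc]; abel⟩⟩
  rw [hot] at hmain
  have hsT : sT ρ σ = ((oT N).map fun w => ((T⁻¹).val * m w).trace).sum - (T⁻¹).val.trace := by
    unfold sT
    rw [n1a_trace_inv]
    congr 2
    apply List.map_congr_left
    intro w _
    rw [hmdef, Matrix.mul_smul, Matrix.trace_smul, smul_eq_mul, map_mul, map_inv]
    rfl
  rw [hsT]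
  exact hmain

end

end Pool.Agent.F8
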