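import Pool.Agent.Lib.MP_305fdd_al.F8.StmNI

/-!
# MP_305fdd_al, block NI: from the quadratic equation to an affine representation
-/

set_option autoImplicit false

namespace Pool.Agent.F8

open Pool.Agent.MP_305fdd_al Pool.Agent.Lib.MP_305fdd_al Pool.Agent.F2X

noncomputable section

section n1b

variable {K : Type} [Field K] {N : ℕ} (ρ : GN N →* SL2 K) (σ : GN N →* Kˣ)

/-- `w ↦ σ(w) ρ(w)` -/
def n1b_m : F →* Matrix (Fin 2) (Fin 2) K where
  toFun w := (σ (iN N w)).val • (ρ (iN N w)).val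
  map_one' := by simp
  map_mul' x y := by
    rw [map_mul, map_mul, map_mul, Units.val_mul, Matrix.SpecialLinearGroup.coe_mul,
      smul_mul_smul_comm]

/-- `w ↦ (σ(w), ρ(w), 0)` -/
def n1b_sr : F →* Q2 K where
  toFun w := ⟨σ (iN N w), ρ (iN N w), 0⟩
  map_one' := by
    apply Q2.ext <;> simp
  map_mul' x y := by
    apply Q2.ext <;> simp

/-- its conjugate by the translation with `y` -/
def n1b_c (y : Fin 2 → K) : F →* Q2 K :=
  (MulAut.conj (⟨1, 1, y⟩ : Q2 K)).toMonoidHom.comp (n1b_sr ρ σ)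

theorem n1b_c_t (y : Fin 2 → K) (w : F) : (n1b_c ρ σ y w).t = σ (iN N w) := by
  show ((⟨1, 1, y⟩ : Q2 K) * ⟨σ (iN N w), ρ (iN N w), 0⟩ * (⟨1, 1, y⟩ : Q2 K)⁻¹).t = _
  simp

theorem n1b_c_m (y : Fin 2 → K) (w : F) : (n1b_c ρ σ y w).m = ρ (iN N w) := by
  show ((⟨1, 1, y⟩ : Q2 K) * ⟨σ (iN N w), ρ (iN N w), 0⟩ * (⟨1, 1, y⟩ : Q2 K)⁻¹).m = _
  simp

theorem n1b_c_v (y : Fin 2 → K) (w : F) :
    (n1b_c ρ σ y w).v = y - (n1b_m ρ σ w).mulVec y := by
  show ((⟨1, 1, y⟩ : Q2 K) * ⟨σ (iN N w), ρ (iN N w), 0⟩ * (⟨1, 1, y⟩ : Q2 K)⁻¹).v =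
    y - ((σ (iN N w)).val • (ρ (iN N w)).val).mulVec y
  rw [Matrix.smul_mulVec]
  simp only [Q2.mul_v, Q2.mul_t, Q2.mul_m, Q2.inv_v, inv_one, one_mul, Units.val_one, one_smul,
    Matrix.SpecialLinearGroup.coe_one, Matrix.one_mulVec, Matrix.mulVec_neg, smul_neg, add_zero]
  rw [sub_eq_add_neg]

/-- the coboundaries -/
def n1b_del : (Fin 2 → K) →ₗ[K] E2 K :=
  LinearMap.prod (LinearMap.id - (n1b_m ρ σ x0).mulVecLin) (LinearMap.id - (n1b_m ρ σ ga).mulVecLin)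

theorem n1b_del_apply (y : Fin 2 → K) :
    n1b_del ρ σ y = (y - (n1b_m ρ σ x0).mulVec y, y - (n1b_m ρ σ ga).mulVec y) := rfl

theorem n1b_gb : (gb : F) = ga * x0⁻¹ := by unfold x0; group

/-- homomorphisms on `F` agreeing on `x0` and `ga` -/
theorem n1b_ext {Q : Type} [Group Q] {f g : F →* Q} (h0 : f x0 = g x0) (h1 : f ga = g ga) :
    f = g := by
  apply hom_ext h1
  rw [n1b_gb, map_mul, map_mul, map_inv, map_inv, h0, h1]

theorem n1b_det (A : SL2 K) : (A.val - 1).det = 2 - tr A := by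
  have h := A.2
  rw [Matrix.det_fin_two] at h
  rw [tr_eq, Matrix.det_fin_two]
  simp only [Matrix.sub_apply, Matrix.one_apply_eq]
  have h01 : (1 : Matrix (Fin 2) (Fin 2) K) 0 1 = 0 := by simp
  have h10 : (1 : Matrix (Fin 2) (Fin 2) K) 1 0 = 0 := by simp
  rw [h01, h10]
  linear_combination h

/-- a commutator `k` with `tr ρ(k) ≠ 2` -/
theorem n1b_k (h : Irr (ρ.comp (iN N))) : ∃ k : F, σ (iN N k) = 1 ∧
    ((ρ (iN N k)).val - 1).det ≠ 0 := by
  obtain ⟨g, h', hgh⟩ := h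
  refine ⟨g * h' * g⁻¹ * h'⁻¹, ?_, ?_⟩
  · simp only [map_mul, map_inv]
    rw [mul_comm (σ (iN N g)) (σ (iN N h'))]; group
  · rw [n1b_det]
    intro h0
    apply hgh
    rw [MonoidHom.comp_apply]
    exact (sub_eq_zero.1 h0).symm

theorem n1b_inj (h : Irr (ρ.comp (iN N))) : Function.Injective (n1b_del ρ σ) := by
  rw [injective_iff_map_eq_zero]
  intro y hy
  rw [n1b_del_apply, Prod.mk_eq_zero] at hy
  have h1 : n1b_c ρ σ y = n1b_sr ρ σ := by
    apply n1b_ext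
    · apply Q2.ext
      · exact n1b_c_t ρ σ y x0
      · exact n1b_c_m ρ σ y x0
      · rw [n1b_c_v]; exact hy.1
    · apply Q2.ext
      · exact n1b_c_t ρ σ y ga
      · exact n1b_c_m ρ σ y ga
      · rw [n1b_c_v]; exact hy.2
  obtain ⟨k, hk1, hk2⟩ := n1b_k ρ σ h
  have h2 : y - (n1b_m ρ σ k).mulVec y = 0 := by
    rw [← n1b_c_v, h1]; rfl
  have h3 : ((ρ (iN N k)).val - 1).mulVec y = 0 := by
    have h4 : n1b_m ρ σ k = (ρ (iN N k)).val := by
      show (σ (iN N k)).val • (ρ (iN N k)).val = _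
      rw [hk1]; simp
    rw [h4] at h2
    rw [Matrix.sub_mulVec, Matrix.one_mulVec]
    rw [← neg_sub, h2, neg_zero]
  by_contra hy0
  exact hk2 (Matrix.exists_mulVec_eq_zero_iff.1 ⟨y, hy0, h3⟩)

theorem n1b_list (f : F →* Q2 K) (hf : ∀ w, n1b_m ρ σ w = (f w).t.val • (f w).m.val)
    (v : Fin 2 → K) (l : List F) :
    (l.map fun w => (f w).t.val • (f w).m.val.mulVec v).sum =
      ((l.map (n1b_m ρ σ)).sum).mulVec v := by
  induction l with
  | nil => simp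
  | cons a l ih =>
    rw [List.map_cons, List.map_cons, List.sum_cons, List.sum_cons, ih, Matrix.add_mulVec, hf a,
      Matrix.smul_mulVec]

theorem n1b_op (hocv : S_ocv) (f : F →* Q2 K)
    (hf : ∀ w, n1b_m ρ σ w = (f w).t.val • (f w).m.val) (T : Matrix (Fin 2) (Fin 2) K) :
    opU N (n1b_m ρ σ) T ((f x0).v, (f ga).v) =
      (T.mulVec (f ((phi ^ N) x0)).v, T.mulVec (f ((phi ^ N) ga)).v) := by
  have h0 := hocv K f N false
  have h1 := hocv K f N true
  rw [n1b_list ρ σ f hf, n1b_list ρ σ f hf] at h0 h1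
  show (T.mulVec ((Jm N (n1b_m ρ σ) false false).mulVec (f x0).v +
      (Jm N (n1b_m ρ σ) false true).mulVec (f ga).v),
    T.mulVec ((Jm N (n1b_m ρ σ) true false).mulVec (f x0).v +
      (Jm N (n1b_m ρ σ) true true).mulVec (f ga).v)) = _
  unfold Jm
  rw [← h0, ← h1]
  rfl

theorem n1b_rho_conj (w : F) :
    ρ (iN N ((phi ^ N) w)) = ρ (tN N) * ρ (iN N w) * (ρ (tN N))⁻¹ := by
  rw [← tN_conj, map_mul, map_mul, map_inv]

theorem n1b_sig_conj (w : F) : σ (iN N ((phi ^ N) w)) = σ (iN N w) := by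
  rw [← tN_conj, map_mul, map_mul, map_inv, mul_comm (σ (tN N)), mul_inv_cancel_right]

theorem n1b_m_conj (w : F) : ((ρ (tN N))⁻¹).val * n1b_m ρ σ ((phi ^ N) w) =
    n1b_m ρ σ w * ((ρ (tN N))⁻¹).val := by
  show ((ρ (tN N))⁻¹).val * ((σ (iN N ((phi ^ N) w))).val • (ρ (iN N ((phi ^ N) w))).val) =
    ((σ (iN N w)).val • (ρ (iN N w)).val) * ((ρ (tN N))⁻¹).val
  rw [n1b_sig_conj, n1b_rho_conj, mul_smul_comm, smul_mul_assoc, ← Matrix.SpecialLinearGroup.coe_mul,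
    ← Matrix.SpecialLinearGroup.coe_mul]
  have h : (ρ (tN N))⁻¹ * (ρ (tN N) * ρ (iN N w) * (ρ (tN N))⁻¹) =
      ρ (iN N w) * (ρ (tN N))⁻¹ := by group
  rw [h]

/-- the operator on the coboundaries -/
theorem n1b_op_del (hocv : S_ocv) (y : Fin 2 → K) :
    opU N (n1b_m ρ σ) ((ρ (tN N))⁻¹).val (n1b_del ρ σ y) =
      n1b_del ρ σ (((ρ (tN N))⁻¹).val.mulVec y) := by
  have hf : ∀ w, n1b_m ρ σ w = (n1b_c ρ σ y w).t.val • (n1b_c ρ σ y w).m.val := by
    intro w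
    rw [n1b_c_t, n1b_c_m]; rfl
  have h := n1b_op ρ σ hocv (n1b_c ρ σ y) hf ((ρ (tN N))⁻¹).val
  rw [n1b_c_v, n1b_c_v, n1b_c_v, n1b_c_v] at h
  rw [n1b_del_apply, n1b_del_apply, h]
  rw [Matrix.mulVec_sub, Matrix.mulVec_sub, Matrix.mulVec_mulVec, Matrix.mulVec_mulVec,
    Matrix.mulVec_mulVec, Matrix.mulVec_mulVec, n1b_m_conj, n1b_m_conj]

/-- the trace of the operator -/
theorem n1b_trace (hot : S_ot) :
    LinearMap.trace K _ (opU N (n1b_m ρ σ) ((ρ (tN N))⁻¹).val) - ((ρ (tN N))⁻¹).val.trace =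
      sT ρ σ := by
  rw [hot]
  unfold sT
  congr 1
  · congr 1
    apply List.map_congr_left
    intro w _
    show (((ρ (tN N))⁻¹).val * ((σ (iN N w)).val • (ρ (iN N w)).val)).trace = _
    rw [mul_smul_comm, Matrix.trace_smul, smul_eq_mul, map_mul ρ, map_inv ρ]
    rfl
  · rw [tr_eq, Matrix.trace_fin_two, Matrix.SpecialLinearGroup.coe_inv, Matrix.adjugate_fin_two]
    simp [add_comm]

theorem n1b_detU (hod : S_od) :
    LinearMap.det (opU N (n1b_m ρ σ) ((ρ (tN N))⁻¹).val) = 1 := by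
  rw [hod, ((ρ (tN N))⁻¹).2, one_mul]

/-- the criterion -/
theorem n1b_crit (hocv : S_ocv) (hlin : S_lin) (hod : S_od) (hot : S_ot)
    (h : Irr (ρ.comp (iN N))) (τ : K) :
    (∃ c, c ∉ LinearMap.range (n1b_del ρ σ) ∧
      opU N (n1b_m ρ σ) ((ρ (tN N))⁻¹).val c - τ • c ∈ LinearMap.range (n1b_del ρ σ)) ↔
    τ * τ - sT ρ σ * τ + 1 = 0 := by
  have h1 := hlin K (opU N (n1b_m ρ σ) ((ρ (tN N))⁻¹).val) (n1b_del ρ σ) ((ρ (tN N))⁻¹).val
    (n1b_inj ρ σ h) (n1b_op_del ρ σ hocv) ((ρ (tN N))⁻¹).2 (n1b_detU ρ σ hod) τ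
  rw [n1b_trace ρ σ hot] at h1
  exact h1

end n1b

theorem p_n1b (hocv : S_ocv) (hlin : S_lin) (hod : S_od) (hot : S_ot) (hncb : S_ncb) :
    S_n1b := by
  intro K _ N ρ σ hirr heq
  obtain ⟨c, hc, hU⟩ := (n1b_crit ρ σ hocv hlin hod hot hirr (σ (tN N)).val).2 heq
  obtain ⟨p, q⟩ := c
  obtain ⟨y', hy'⟩ := hU
  -- the homomorphism on `F`
  let A0 : Q2 K := ⟨σ (iN N x0), ρ (iN N x0), p⟩
  let A1 : Q2 K := ⟨σ (iN N ga), ρ (iN N ga), q⟩
  obtain ⟨f, hf⟩ : ∃ f : F →* Q2 K, f = liF A1 (A1 * A0⁻¹) := ⟨_, rfl⟩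
  have hfga : f ga = A1 := by rw [hf, liF_ga]
  have hfx0 : f x0 = A0 := by
    unfold x0
    rw [map_mul, map_inv, hf, liF_ga, liF_gb]; group
  have hft : Q2.tH.comp f = σ.comp (iN N) := by
    apply n1b_ext
    · rw [MonoidHom.comp_apply, hfx0]; rfl
    · rw [MonoidHom.comp_apply, hfga]; rfl
  have hfm : Q2.mH.comp f = ρ.comp (iN N) := by
    apply n1b_ext
    · rw [MonoidHom.comp_apply, hfx0]; rfl
    · rw [MonoidHom.comp_apply, hfga]; rfl
  have hft' : ∀ w, (f w).t = σ (iN N w) := fun w => DFunLike.congr_fun hft w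
  have hfm' : ∀ w, (f w).m = ρ (iN N w) := fun w => DFunLike.congr_fun hfm w
  have hmm : ∀ w, n1b_m ρ σ w = (f w).t.val • (f w).m.val := by
    intro w
    rw [hft', hfm']; rfl
  -- the element `s`
  let s : Q2 K := ⟨σ (tN N), ρ (tN N), (ρ (tN N)).val.mulVec y'⟩
  have hTT : (ρ (tN N)).val * ((ρ (tN N))⁻¹).val = 1 := by
    rw [← Matrix.SpecialLinearGroup.coe_mul, mul_inv_cancel]; rfl
  have hTT' : ((ρ (tN N))⁻¹).val * (ρ (tN N)).val = 1 := by
    rw [← Matrix.SpecialLinearGroup.coe_mul, inv_mul_cancel]; rfl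
  have hop := n1b_op ρ σ hocv f hmm ((ρ (tN N))⁻¹).val
  have hpq : ((f x0).v, (f ga).v) = (p, q) := by rw [hfx0, hfga]
  rw [hpq] at hop
  rw [hop, n1b_del_apply] at hy'
  have hv : ∀ w : F, (w = x0 ∨ w = ga) → (f ((phi ^ N) w)).v =
      (σ (tN N)).val • (ρ (tN N)).val.mulVec (f w).v +
        (ρ (tN N)).val.mulVec (y' - (n1b_m ρ σ w).mulVec y') := by
    intro w hw
    have key : ((ρ (tN N))⁻¹).val.mulVec (f ((phi ^ N) w)).v =
        (σ (tN N)).val • (f w).v + (y' - (n1b_m ρ σ w).mulVec y') := by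
      rcases hw with rfl | rfl
      · have h1 := congrArg Prod.fst hy'
        have h2 : (f x0).v = p := by rw [hfx0]
        rw [h2]
        have h3 : y' - (n1b_m ρ σ x0).mulVec y' =
          ((ρ (tN N))⁻¹).val.mulVec (f ((phi ^ N) x0)).v - (σ (tN N)).val • p := h1
        rw [h3]; abel
      · have h1 := congrArg Prod.snd hy'
        have h2 : (f ga).v = q := by rw [hfga]
        rw [h2]
        have h3 : y' - (n1b_m ρ σ ga).mulVec y' =
          ((ρ (tN N))⁻¹).val.mulVec (f ((phi ^ N) ga)).v - (σ (tN N)).val • q := h1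
        rw [h3]; abel
    have h4 := congrArg (fun v => (ρ (tN N)).val.mulVec v) key
    simp only [Matrix.mulVec_mulVec, hTT, Matrix.one_mulVec] at h4
    rw [h4, Matrix.mulVec_add, Matrix.mulVec_smul]
  have hs : ∀ w, f ((phi ^ N) w) = s * f w * s⁻¹ := by
    have h : f.comp (phi ^ N).toMonoidHom = (MulAut.conj s).toMonoidHom.comp f := by
      have h1 : ∀ w : F, (w = x0 ∨ w = ga) → f ((phi ^ N) w) = s * f w * s⁻¹ := by
        intro w hw
        apply Q2.ext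
        · rw [Q2.mul_t, Q2.mul_t, Q2.inv_t, hft', hft', n1b_sig_conj, mul_comm s.t,
            mul_inv_cancel_right]
        · rw [Q2.mul_m, Q2.mul_m, Q2.inv_m, hfm', hfm', n1b_rho_conj]
        · rw [hv w hw]
          simp only [Q2.mul_v, Q2.mul_t, Q2.mul_m, Q2.inv_v, Q2.inv_t, Q2.inv_m]
          rw [hft', hfm']
          show _ = (ρ (tN N)).val.mulVec y' + (σ (tN N)).val • (ρ (tN N)).val.mulVec (f w).v +
            (σ (tN N) * σ (iN N w)).val • (ρ (tN N) * ρ (iN N w)).val.mulVec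
              (-(((σ (tN N))⁻¹).val • ((ρ (tN N))⁻¹).val.mulVec
                ((ρ (tN N)).val.mulVec y')))
          have h2 : (σ (tN N) * σ (iN N w)).val • (ρ (tN N) * ρ (iN N w)).val.mulVec
              (-(((σ (tN N))⁻¹).val • ((ρ (tN N))⁻¹).val.mulVec
                ((ρ (tN N)).val.mulVec y'))) =
              -(ρ (tN N)).val.mulVec ((n1b_m ρ σ w).mulVec y') := by
            have e1 : (n1b_m ρ σ w).mulVec y' =
                (σ (iN N w)).val • (ρ (iN N w)).val.mulVec y' := by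
              show ((σ (iN N w)).val • (ρ (iN N w)).val).mulVec y' = _
              rw [Matrix.smul_mulVec]
            have e2 : (σ (tN N) * σ (iN N w)).val * ((σ (tN N))⁻¹).val = (σ (iN N w)).val := by
              rw [← Units.val_mul]
              congr 1
              rw [mul_comm (σ (tN N)), mul_inv_cancel_right]
            rw [e1, Matrix.mulVec_smul, Matrix.mulVec_mulVec y' ((ρ (tN N))⁻¹).val, hTT',
              Matrix.one_mulVec, Matrix.mulVec_neg, Matrix.mulVec_smul, smul_neg, smul_smul, e2,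
              Matrix.SpecialLinearGroup.coe_mul, ← Matrix.mulVec_mulVec]
          rw [h2, Matrix.mulVec_sub]
          abel
      apply n1b_ext
      · exact h1 x0 (Or.inl rfl)
      · exact h1 ga (Or.inr rfl)
    exact fun w => DFunLike.congr_fun h w
  refine ⟨liftN f s hs, ?_, ?_, ?_⟩
  · apply homN_ext
    · intro w
      rw [MonoidHom.comp_apply, liftN_iN]
      exact hfm' w
    · rw [MonoidHom.comp_apply, liftN_tN]; rfl
  · apply homN_ext
    · intro w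
      rw [MonoidHom.comp_apply, liftN_iN]
      exact hft' w
    · rw [MonoidHom.comp_apply, liftN_tN]; rfl
  · obtain ⟨k, hk1, hk2⟩ := n1b_k ρ σ hirr
    have hX : (Q2.X (liftN f s hs (iN N k))).det ≠ 0 := by
      unfold Q2.X
      rw [liftN_iN, hft', hfm', hk1, Units.val_one, one_smul]
      exact hk2
    rw [hncb K (GN N) (liftN f s hs) (iN N k) hX]
    rintro ⟨y, hy⟩
    apply hc
    refine ⟨y, ?_⟩
    rw [n1b_del_apply]
    have h0 := hy (iN N x0)
    have h1 := hy (iN N ga)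
    unfold Q2.X at h0 h1
    rw [liftN_iN, ← hmm, Matrix.sub_mulVec, Matrix.one_mulVec, neg_sub] at h0 h1
    rw [← h0, ← h1, hfx0, hfga]

end

end Pool.Agent.F8
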