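import Pool.Agent.Lib.MP_305fdd_al.F8.StmNI

/-!
# MP_305fdd_al, cyclic covers of the figure-eight knot complement: proof of `S_ncb`
-/

set_option autoImplicit false

namespace Pool.Agent.F8

open Pool.Agent.MP_305fdd_al Pool.Agent.Lib.MP_305fdd_al Pool.Agent.F2X
open scoped QuadraticAlgebra

theorem p_ncb : S_ncb := by
  intro K _ G _ Θ k hk
  constructor
  · rintro ⟨g, h, hW⟩ ⟨y, hy⟩
    apply hW
    unfold Q2.W
    have e : (Q2.X (Θ g)).adjugate.mulVec ((Q2.X (Θ g)).mulVec y) = (Q2.X (Θ g)).det • y := by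
      rw [Matrix.mulVec_mulVec, Matrix.adjugate_mul, Matrix.smul_mulVec, Matrix.one_mulVec]
    rw [hy g, hy h, Matrix.mulVec_neg, Matrix.mulVec_neg, e, Matrix.mulVec_smul, smul_neg,
      sub_neg_eq_add, neg_add_cancel]
  · intro h
    by_contra hNC
    apply h
    refine ⟨-((Q2.X (Θ k)).det⁻¹ • (Q2.X (Θ k)).adjugate.mulVec (Θ k).v), fun g => ?_⟩
    have hW : Q2.W (Θ k) (Θ g) = 0 := by
      by_contra hne
      exact hNC ⟨k, g, hne⟩
    unfold Q2.W at hW
    rw [sub_eq_zero] at hW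
    rw [Matrix.mulVec_neg, neg_neg, Matrix.mulVec_smul, ← hW, smul_smul, inv_mul_cancel₀ hk,
      one_smul]

end Pool.Agent.F8
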