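import Pool.Agent.Lib.MP_305fdd_al.F8.StmNI

/-!
# MP_305fdd_al, cyclic covers of the figure-eight knot complement: piece ocp
-/

set_option autoImplicit false

namespace Pool.Agent.F8

open Pool.Agent.MP_305fdd_al Pool.Agent.Lib.MP_305fdd_al Pool.Agent.F2X
open scoped QuadraticAlgebra

theorem ocp_eq (N M : ℕ) (y w w' : F) : (phi ^ M) ((phi ^ N) y * w) * w' =
    (phi ^ (N + M)) y * ((phi ^ M) w * w') := by
  rw [map_mul, ← MulAut.mul_apply, ← pow_add, Nat.add_comm M N, mul_assoc]

theorem p_ocp : S_ocp := by
  intro N
  induction N with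
  | zero =>
    intro M i k j w w' hw hw'
    have h : oc 0 i k = if i = k then [1] else [] := rfl
    rw [h] at hw
    split_ifs at hw with hik
    · subst hik
      rw [List.mem_singleton] at hw
      subst hw
      rw [map_one, one_mul, Nat.zero_add]
      exact hw'
    · simp at hw
  | succ N ih =>
    intro M i k j w w' hw hw'
    rw [show N + 1 + M = N + M + 1 from Nat.add_right_comm N 1 M]
    cases i with
    | false =>
      have h : oc (N + 1) false k = oc N false k ++ (oc N true k).map (fun w => (phi ^ N) x0 * w) :=
        rfl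
      have h' : oc (N + M + 1) false j = oc (N + M) false j ++
          (oc (N + M) true j).map (fun w => (phi ^ (N + M)) x0 * w) := rfl
      rw [h, List.mem_append, List.mem_map] at hw
      rw [h', List.mem_append, List.mem_map]
      rcases hw with hw | ⟨w0, hw0, rfl⟩
      · exact Or.inl (ih M false k j w w' hw hw')
      · right
        exact ⟨(phi ^ M) w0 * w', ih M true k j w0 w' hw0 hw', (ocp_eq N M x0 w0 w').symm⟩
    | true =>
      have h : oc (N + 1) true k = oc N true k ++ (oc N false k).map (fun w => (phi ^ N) ga * w) ++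
          (oc N true k).map (fun w => (phi ^ N) (ga * x0) * w) := rfl
      have h' : oc (N + M + 1) true j = oc (N + M) true j ++
          (oc (N + M) false j).map (fun w => (phi ^ (N + M)) ga * w) ++
          (oc (N + M) true j).map (fun w => (phi ^ (N + M)) (ga * x0) * w) := rfl
      rw [h, List.mem_append, List.mem_append, List.mem_map, List.mem_map] at hw
      rw [h', List.mem_append, List.mem_append, List.mem_map, List.mem_map]
      rcases hw with (hw | ⟨w0, hw0, rfl⟩) | ⟨w0, hw0, rfl⟩
      · exact Or.inl (Or.inl (ih M true k j w w' hw hw'))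
      · exact Or.inl (Or.inr ⟨(phi ^ M) w0 * w', ih M false k j w0 w' hw0 hw',
          (ocp_eq N M ga w0 w').symm⟩)
      · exact Or.inr ⟨(phi ^ M) w0 * w', ih M true k j w0 w' hw0 hw',
          (ocp_eq N M (ga * x0) w0 w').symm⟩

end Pool.Agent.F8
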