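import Pool.Agent.Lib.MP_305fdd_al.F8.StmNI

/-!
# MP_305fdd_al, cyclic covers of the figure-eight knot complement, block NI, piece od
-/

set_option autoImplicit false

namespace Pool.Agent.F8

open Pool.Agent.MP_305fdd_al Pool.Agent.Lib.MP_305fdd_al Pool.Agent.F2X
open scoped QuadraticAlgebra

private theorem od_det {K : Type} [Field K] (L : E2 K →ₗ[K] E2 K)
    (a b c d : Matrix (Fin 2) (Fin 2) K)
    (h : ∀ v : E2 K, L v = (a.mulVec v.1 + b.mulVec v.2, c.mulVec v.1 + d.mulVec v.2)) :
    LinearMap.det L = (Matrix.fromBlocks a b c d).det := by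
  have e : L = (LinearEquiv.sumArrowLequivProdArrow (Fin 2) (Fin 2) K K :
      (Fin 2 ⊕ Fin 2 → K) →ₗ[K] E2 K) ∘ₗ Matrix.toLin' (Matrix.fromBlocks a b c d) ∘ₗ
      ((LinearEquiv.sumArrowLequivProdArrow (Fin 2) (Fin 2) K K).symm :
        E2 K →ₗ[K] (Fin 2 ⊕ Fin 2 → K)) := by
    apply LinearMap.ext
    intro v
    rw [h]
    show _ = LinearEquiv.sumArrowLequivProdArrow (Fin 2) (Fin 2) K K
      (Matrix.toLin' (Matrix.fromBlocks a b c d)
        ((LinearEquiv.sumArrowLequivProdArrow (Fin 2) (Fin 2) K K).symm v))
    rw [Matrix.toLin'_apply, Matrix.fromBlocks_mulVec]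
    have h1 : ((LinearEquiv.sumArrowLequivProdArrow (Fin 2) (Fin 2) K K).symm v) ∘ Sum.inl =
        v.1 := by
      funext i
      exact LinearEquiv.sumArrowLequivProdArrow_symm_apply_inl v.1 v.2 i
    have h2 : ((LinearEquiv.sumArrowLequivProdArrow (Fin 2) (Fin 2) K K).symm v) ∘ Sum.inr =
        v.2 := by
      funext i
      exact LinearEquiv.sumArrowLequivProdArrow_symm_apply_inr v.1 v.2 i
    rw [h1, h2]
    apply Prod.ext
    · funext i
      rw [LinearEquiv.sumArrowLequivProdArrow_apply_fst]
      rfl
    · funext i
      rw [LinearEquiv.sumArrowLequivProdArrow_apply_snd]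
      rfl
  rw [e, LinearMap.det_conj, LinearMap.det_toLin']

private theorem od_succ_false {R : Type} [CommRing R] (N : ℕ)
    (m : F →* Matrix (Fin 2) (Fin 2) R) (j : Bool) :
    Jm (N + 1) m false j = Jm N m false j + m ((phi ^ N) x0) * Jm N m true j := by
  unfold Jm
  have h : oc (N + 1) false j = oc N false j ++ (oc N true j).map (fun w => (phi ^ N) x0 * w) := rfl
  rw [h, List.map_append, List.sum_append, List.map_map]
  congr 1
  rw [← List.sum_map_mul_left]
  congr 1
  apply List.map_congr_left
  intro w _
  show m ((phi ^ N) x0 * w) = _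
  rw [map_mul]

private theorem od_succ_true {R : Type} [CommRing R] (N : ℕ)
    (m : F →* Matrix (Fin 2) (Fin 2) R) (j : Bool) :
    Jm (N + 1) m true j = Jm N m true j + m ((phi ^ N) ga) * Jm (N + 1) m false j := by
  rw [od_succ_false]
  unfold Jm
  have h : oc (N + 1) true j = oc N true j ++ (oc N false j).map (fun w => (phi ^ N) ga * w) ++
      (oc N true j).map (fun w => (phi ^ N) (ga * x0) * w) := rfl
  rw [h, List.map_append, List.sum_append, List.map_append, List.sum_append, List.map_map,
    List.map_map, add_assoc, mul_add, ← mul_assoc]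
  congr 2
  · rw [← List.sum_map_mul_left]
    congr 1
    apply List.map_congr_left
    intro w _
    show m ((phi ^ N) ga * w) = _
    rw [map_mul]
  · rw [← List.sum_map_mul_left]
    congr 1
    apply List.map_congr_left
    intro w _
    show m ((phi ^ N) (ga * x0) * w) = _
    rw [map_mul, map_mul, map_mul]

private theorem od_J {R : Type} [CommRing R] (m : F →* Matrix (Fin 2) (Fin 2) R) (N : ℕ) :
    (Matrix.fromBlocks (Jm N m false false) (Jm N m false true) (Jm N m true false)
      (Jm N m true true)).det = 1 := by
  induction N with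
  | zero =>
    have e1 : Jm 0 m false false = 1 := by
      show ([1].map m).sum = 1
      simp
    have e2 : Jm 0 m false true = 0 := by
      show (List.map m []).sum = 0
      simp
    have e3 : Jm 0 m true false = 0 := by
      show (List.map m []).sum = 0
      simp
    have e4 : Jm 0 m true true = 1 := by
      show ([1].map m).sum = 1
      simp
    rw [e1, e2, e3, e4, Matrix.fromBlocks_one, Matrix.det_one]
  | succ N ih =>
    have e : Matrix.fromBlocks (Jm (N + 1) m false false) (Jm (N + 1) m false true)
        (Jm (N + 1) m true false) (Jm (N + 1) m true true) =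
        Matrix.fromBlocks 1 0 (m ((phi ^ N) ga)) 1 * (Matrix.fromBlocks 1 (m ((phi ^ N) x0)) 0 1 *
          Matrix.fromBlocks (Jm N m false false) (Jm N m false true) (Jm N m true false)
            (Jm N m true true)) := by
      rw [Matrix.fromBlocks_multiply, Matrix.fromBlocks_multiply, od_succ_true, od_succ_true,
        od_succ_false, od_succ_false]
      congr 1
      · simp
      · simp
      · rw [one_mul, zero_mul, one_mul, one_mul, zero_add, add_comm]
      · rw [one_mul, zero_mul, one_mul, one_mul, zero_add, add_comm]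
    rw [e, Matrix.det_mul, Matrix.det_mul, ih, Matrix.det_fromBlocks_zero₁₂,
      Matrix.det_fromBlocks_zero₂₁]
    simp

theorem p_od : S_od := by
  intro K _ N m T
  rw [od_det (opU N m T) (T * Jm N m false false) (T * Jm N m false true)
    (T * Jm N m true false) (T * Jm N m true true)]
  · have e : Matrix.fromBlocks (T * Jm N m false false) (T * Jm N m false true)
        (T * Jm N m true false) (T * Jm N m true true) =
        Matrix.fromBlocks T 0 0 T * Matrix.fromBlocks (Jm N m false false) (Jm N m false true)
          (Jm N m true false) (Jm N m true true) := by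
      rw [Matrix.fromBlocks_multiply]
      simp
    rw [e, Matrix.det_mul, od_J, Matrix.det_fromBlocks_zero₂₁, mul_one]
  · intro v
    show (T.mulVec ((Jm N m false false).mulVec v.1 + (Jm N m false true).mulVec v.2),
      T.mulVec ((Jm N m true false).mulVec v.1 + (Jm N m true true).mulVec v.2)) = _
    rw [Matrix.mulVec_add, Matrix.mulVec_add, Matrix.mulVec_mulVec, Matrix.mulVec_mulVec,
      Matrix.mulVec_mulVec, Matrix.mulVec_mulVec]

end Pool.Agent.F8
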