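import Pool.Agent.Lib.MP_305fdd_al.F8.StmNI

/-!
# MP_305fdd_al: the trace of the operator of a cyclic cover
-/

set_option autoImplicit false

namespace Pool.Agent.F8

open Pool.Agent.MP_305fdd_al Pool.Agent.Lib.MP_305fdd_al Pool.Agent.F2X

private theorem ot_tr {K : Type} [Field K] (A : Matrix (Fin 2) (Fin 2) K) :
    LinearMap.trace K _ (Matrix.mulVecLin A) = A.trace := by
  rw [← Matrix.toLin'_apply']
  exact Matrix.trace_toLin'_eq A

private theorem ot_sum {K : Type} [Field K] (m : F →* Matrix (Fin 2) (Fin 2) K)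
    (T : Matrix (Fin 2) (Fin 2) K) (l : List F) :
    (T * (l.map m).sum).trace = (l.map fun w => (T * m w).trace).sum := by
  induction l with
  | nil => simp
  | cons a l ih => simp only [List.map_cons, List.sum_cons, Matrix.mul_add, Matrix.trace_add, ih]

theorem p_ot : S_ot := by
  intro K _ N m T
  set A := Matrix.mulVecLin (T * Jm N m false false)
  set B := Matrix.mulVecLin (T * Jm N m false true)
  set C := Matrix.mulVecLin (T * Jm N m true false)
  set D := Matrix.mulVecLin (T * Jm N m true true)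
  have h : opU N m T =
      (LinearMap.inl K (Fin 2 → K) (Fin 2 → K) ∘ₗ (A ∘ₗ LinearMap.fst K (Fin 2 → K) (Fin 2 → K)) +
        LinearMap.inl K (Fin 2 → K) (Fin 2 → K) ∘ₗ (B ∘ₗ LinearMap.snd K (Fin 2 → K) (Fin 2 → K))) +
      (LinearMap.inr K (Fin 2 → K) (Fin 2 → K) ∘ₗ (C ∘ₗ LinearMap.fst K (Fin 2 → K) (Fin 2 → K)) +
        LinearMap.inr K (Fin 2 → K) (Fin 2 → K) ∘ₗ
          (D ∘ₗ LinearMap.snd K (Fin 2 → K) (Fin 2 → K))) := by
    apply LinearMap.ext
    rintro ⟨p, q⟩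
    simp only [opU, LinearMap.coe_mk, AddHom.coe_mk, LinearMap.add_apply, LinearMap.comp_apply,
      LinearMap.fst_apply, LinearMap.snd_apply, LinearMap.inl_apply, LinearMap.inr_apply,
      Prod.mk_add_mk, A, B, C, D, Matrix.mulVecLin_apply, add_zero, zero_add, Matrix.mulVec_add,
      Matrix.mulVec_mulVec]
  have e1 : (A ∘ₗ LinearMap.fst K (Fin 2 → K) (Fin 2 → K)) ∘ₗ
      LinearMap.inl K (Fin 2 → K) (Fin 2 → K) = A := by
    rw [LinearMap.comp_assoc, LinearMap.fst_comp_inl, LinearMap.comp_id]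
  have e2 : (B ∘ₗ LinearMap.snd K (Fin 2 → K) (Fin 2 → K)) ∘ₗ
      LinearMap.inl K (Fin 2 → K) (Fin 2 → K) = 0 := by
    rw [LinearMap.comp_assoc, LinearMap.snd_comp_inl, LinearMap.comp_zero]
  have e3 : (C ∘ₗ LinearMap.fst K (Fin 2 → K) (Fin 2 → K)) ∘ₗ
      LinearMap.inr K (Fin 2 → K) (Fin 2 → K) = 0 := by
    rw [LinearMap.comp_assoc, LinearMap.fst_comp_inr, LinearMap.comp_zero]
  have e4 : (D ∘ₗ LinearMap.snd K (Fin 2 → K) (Fin 2 → K)) ∘ₗ
      LinearMap.inr K (Fin 2 → K) (Fin 2 → K) = D := by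
    rw [LinearMap.comp_assoc, LinearMap.snd_comp_inr, LinearMap.comp_id]
  rw [h, map_add, map_add, map_add,
    LinearMap.trace_comp_comm' (A ∘ₗ LinearMap.fst K (Fin 2 → K) (Fin 2 → K))
      (LinearMap.inl K (Fin 2 → K) (Fin 2 → K)), e1,
    LinearMap.trace_comp_comm' (B ∘ₗ LinearMap.snd K (Fin 2 → K) (Fin 2 → K))
      (LinearMap.inl K (Fin 2 → K) (Fin 2 → K)), e2,
    LinearMap.trace_comp_comm' (C ∘ₗ LinearMap.fst K (Fin 2 → K) (Fin 2 → K))
      (LinearMap.inr K (Fin 2 → K) (Fin 2 → K)), e3,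
    LinearMap.trace_comp_comm' (D ∘ₗ LinearMap.snd K (Fin 2 → K) (Fin 2 → K))
      (LinearMap.inr K (Fin 2 → K) (Fin 2 → K)), e4, map_zero, add_zero, zero_add]
  simp only [A, D]
  rw [ot_tr, ot_tr]
  unfold Jm oT
  rw [ot_sum, ot_sum, List.map_append, List.sum_append]

end Pool.Agent.F8
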