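import Pool.Agent.Lib.MP_305fdd_al.F8.StmNI

set_option autoImplicit false

namespace Pool.Agent.F8

open Pool.Agent.MP_305fdd_al Pool.Agent.Lib.MP_305fdd_al Pool.Agent.F2X
open scoped QuadraticAlgebra

private theorem pos_lt (h : S_ccp) (N : ℕ) : (0 ≤ cx ((phi ^ N) x0) ∧ 0 ≤ cu ((phi ^ N) x0)) ∧
    (0 ≤ cx ((phi ^ N) ga) ∧ 0 ≤ cu ((phi ^ N) ga)) := by
  have h1 := h.2 N x0 (by rw [cx_x0]; norm_num) (by rw [cu_x0])
  have h2 := h.2 N ga (by rw [cx_ga]) (by rw [cu_ga]; norm_num)
  exact ⟨⟨h1.1, h1.2.1⟩, ⟨h2.1, h2.2.1⟩⟩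

private theorem pos_f (N : ℕ) : (phi ^ (N + 1)) (lt false) = (phi ^ N) x0 * (phi ^ N) ga := by
  show (phi ^ (N + 1)) x0 = _
  rw [pow_succ, MulAut.mul_apply, phi_x0, map_mul]

private theorem pos_t (N : ℕ) : (phi ^ (N + 1)) (lt true) =
    (phi ^ N) ga * (phi ^ N) x0 * (phi ^ N) ga := by
  show (phi ^ (N + 1)) ga = _
  rw [pow_succ, MulAut.mul_apply, phi_ga', map_mul, map_mul]

theorem p_pos (hccp : S_ccp) : S_pos := by
  intro N
  induction N with
  | zero =>
    intro i j w hw
    unfold oc at hw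
    split_ifs at hw with hij
    · rw [List.mem_singleton] at hw
      subst hw hij
      rw [cx_one, cu_one, pow_zero, MulAut.one_apply]
      exact ⟨le_rfl, le_rfl, by rw [zero_add], by rw [zero_add]⟩
    · exact absurd hw (List.not_mem_nil)
  | succ N ih =>
    obtain ⟨⟨hx1, hx2⟩, ⟨hg1, hg2⟩⟩ := pos_lt hccp N
    intro i j w hw
    cases i with
    | false =>
      rw [pos_f, cx_mul, cu_mul]
      rw [oc, List.mem_append, List.mem_map] at hw
      rcases hw with hw | ⟨w0, hw0, rfl⟩
      · obtain ⟨a, b, c, d⟩ := ih false j w hw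
        have e1 : (phi ^ N) (lt false) = (phi ^ N) x0 := rfl
        rw [e1] at c d
        exact ⟨a, b, by linarith, by linarith⟩
      · obtain ⟨a, b, c, d⟩ := ih true j w0 hw0
        have e1 : (phi ^ N) (lt true) = (phi ^ N) ga := rfl
        rw [e1] at c d
        rw [cx_mul, cu_mul]
        exact ⟨by linarith, by linarith, by linarith, by linarith⟩
    | true =>
      rw [pos_t, cx_mul, cu_mul, cx_mul, cu_mul]
      rw [oc, List.mem_append, List.mem_append, List.mem_map, List.mem_map] at hw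
      rcases hw with (hw | ⟨w0, hw0, rfl⟩) | ⟨w0, hw0, rfl⟩
      · obtain ⟨a, b, c, d⟩ := ih true j w hw
        have e1 : (phi ^ N) (lt true) = (phi ^ N) ga := rfl
        rw [e1] at c d
        exact ⟨a, b, by linarith, by linarith⟩
      · obtain ⟨a, b, c, d⟩ := ih false j w0 hw0
        have e1 : (phi ^ N) (lt false) = (phi ^ N) x0 := rfl
        rw [e1] at c d
        rw [cx_mul, cu_mul]
        exact ⟨by linarith, by linarith, by linarith, by linarith⟩
      · obtain ⟨a, b, c, d⟩ := ih true j w0 hw0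
        have e1 : (phi ^ N) (lt true) = (phi ^ N) ga := rfl
        rw [e1] at c d
        rw [cx_mul, cu_mul, map_mul, cx_mul, cu_mul]
        exact ⟨by linarith, by linarith, by linarith, by linarith⟩

end Pool.Agent.F8
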