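import Pool.Agent.Lib.MP_305fdd_al.F8.StmNI

/-!
# MP_305fdd_al, cyclic covers of the figure-eight knot complement, piece [F8N pr]
-/

set_option autoImplicit false

namespace Pool.Agent.F8

open Pool.Agent.MP_305fdd_al Pool.Agent.Lib.MP_305fdd_al Pool.Agent.F2X

theorem p_pr (hocp : S_ocp) (hccp : S_ccp) (hpos : S_pos) : S_pr := by
  rintro N M w w' ⟨hw, hw1, hw2⟩ ⟨hw', hw1', hw2'⟩
  obtain ⟨p1, p2, p3, p4⟩ := hpos N true true w hw
  obtain ⟨q1, q2, q3⟩ := hccp.2 M w p1 p2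
  have hlt : lt true = ga := rfl
  rw [hlt] at p3 p4
  have hr : (phi ^ N) ga = w * ga * (ga⁻¹ * w⁻¹ * (phi ^ N) ga) := by group
  have hr1 : cx (ga⁻¹ * w⁻¹ * (phi ^ N) ga) = cx ((phi ^ N) ga) - cx w - cx ga := by
    rw [cx_mul, cx_mul, cx_inv, cx_inv]; ring
  have hr2 : cu (ga⁻¹ * w⁻¹ * (phi ^ N) ga) = cu ((phi ^ N) ga) - cu w - cu ga := by
    rw [cu_mul, cu_mul, cu_inv, cu_inv]; ring
  obtain ⟨s1, s2, s3⟩ := hccp.2 M (ga⁻¹ * w⁻¹ * (phi ^ N) ga) (by rw [hr1]; linarith)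
    (by rw [hr2]; linarith)
  have hcomp : (phi ^ (N + M)) ga =
      (phi ^ M) w * (phi ^ M) ga * (phi ^ M) (ga⁻¹ * w⁻¹ * (phi ^ N) ga) := by
    rw [← map_mul, ← map_mul, ← hr, ← MulAut.mul_apply, ← pow_add, add_comm]
  refine ⟨hocp N M true true true w w' hw hw', ?_, ?_⟩
  · rw [cx_mul, cu_mul]
    linarith
  · rw [hcomp, cx_mul, cu_mul, cx_mul, cx_mul, cu_mul, cu_mul]
    linarith

end Pool.Agent.F8
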