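import Pool.Agent.Lib.MP_305fdd_al.F8.StmNI

/-!
# MP_305fdd_al, cyclic covers of the figure-eight knot complement: [F8N seq]
-/

set_option autoImplicit false

namespace Pool.Agent.F8

open Pool.Agent.MP_305fdd_al Pool.Agent.Lib.MP_305fdd_al Pool.Agent.F2X
open scoped QuadraticAlgebra

/-- [F8N seq] equal exceptional values give equal traces. -/
theorem p_seq (hn1a : S_n1a) : S_seq := by
  intro K _ N ρ ρ' χ τ hχ hi hi' hE hE'
  have hs : ∀ r : GN N →* SL2 K, sT r (χ * (pw τ).comp (nN N)) = sT r χ := by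
    intro r
    unfold sT
    congr 3
    ext w
    rw [MonoidHom.mul_apply, MonoidHom.comp_apply, nN_iN, map_one, mul_one]
  have ht : (χ * (pw τ).comp (nN N)) (tN N) = τ := by
    rw [MonoidHom.mul_apply, MonoidHom.comp_apply, nN_tN, hχ, one_mul]
    simp [pw]
  have h1 := hn1a K N ρ _ hi hE
  have h2 := hn1a K N ρ' _ hi' hE'
  rw [ht, hs] at h1 h2
  have h3 : (sT ρ χ - sT ρ' χ) * τ.val = 0 := by linear_combination h2 - h1
  rcases mul_eq_zero.1 h3 with h | h
  · exact sub_eq_zero.1 h
  · exact absurd h τ.ne_zero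

end Pool.Agent.F8
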