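import Pool.Agent.Lib.MP_305fdd_al.F8.StmNI

/-!
# MP_305fdd_al, cyclic covers of the figure-eight knot complement: [F8N trq]
-/

set_option autoImplicit false

namespace Pool.Agent.F8

open Module.Basis in
theorem p_trq : S_trq := by
  intro K V _ _ _ _ W e he
  let m := Module.Free.ChooseBasisIndex K W
  let bW : Module.Basis m K W := Module.Free.chooseBasis K W
  let n := Module.Free.ChooseBasisIndex K (V ⧸ W)
  let bQ : Module.Basis n K (V ⧸ W) := Module.Free.chooseBasis K (V ⧸ W)
  classical
  rw [LinearMap.trace_eq_matrix_trace K (sumQuot bW bQ), LinearMap.trace_eq_matrix_trace K bW,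
    LinearMap.trace_eq_matrix_trace K bQ]
  simp only [Matrix.trace, Matrix.diag_apply, Fintype.sum_sum_type]
  congr 1
  · apply Finset.sum_congr rfl
    intro i _
    rw [LinearMap.toMatrix_apply, LinearMap.toMatrix_apply, sumQuot_inl]
    exact sumQuot_repr_inl_of_mem bW bQ _ (he (bW i).2) i
  · apply Finset.sum_congr rfl
    intro j _
    rw [LinearMap.toMatrix_apply, LinearMap.toMatrix_apply, sumQuot_repr_inr,
      ← sumQuot_inr bW bQ j, W.mapQ_apply]
    rfl

end Pool.Agent.F8
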