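import Pool.Agent.Lib.MP_305fdd_al.F8.StmNI

/-!
# MP_305fdd_al, block NI: the three loops (`S_w123`)
-/

set_option autoImplicit false

namespace Pool.Agent.F8

open Pool.Agent.MP_305fdd_al Pool.Agent.Lib.MP_305fdd_al Pool.Agent.F2X

private theorem w123_mem (n : ℕ) (hn : 2 ≤ n) : w1 ∈ oc n true true ∧ w2 ∈ oc n true true ∧
    w3 ∈ oc n true true := by
  induction n, hn using Nat.le_induction with
  | base =>
    have e : oc 2 true true = [1, ga * x0, phi ga * x0, phi (ga * x0), phi (ga * x0) * (ga * x0)] := by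
      simp [oc]
    rw [e]
    refine ⟨?_, ?_, ?_⟩
    · simp [w1]
    · have : w2 = phi ga * x0 := by rw [phi_ga', w2]
      rw [this]; simp
    · have : w3 = phi (ga * x0) := by
        rw [map_mul, phi_ga', phi_x0, w3]; group
      rw [this]; simp
  | succ n hn ih =>
    have h : ∀ w, w ∈ oc n true true → w ∈ oc (n + 1) true true := by
      intro w hw
      simp only [oc, List.mem_append]
      exact Or.inl (Or.inl hw)
    exact ⟨h _ ih.1, h _ ih.2.1, h _ ih.2.2⟩

theorem p_w123 (h : S_ccp) : S_w123 := by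
  intro n hn
  obtain ⟨h1, h2⟩ := h
  obtain ⟨m1, m2, m3⟩ := w123_mem n hn
  have e2 : (phi ^ 2) ga = phi (phi ga) := by rw [pow_two, MulAut.mul_apply]
  have a1 : cx (phi ga) = 1 ∧ cu (phi ga) = 2 := by
    have := h1 ga
    rw [cx_ga, cu_ga] at this
    omega
  have a2 : cx ((phi ^ 2) ga) = 3 ∧ cu ((phi ^ 2) ga) = 5 := by
    have := h1 (phi ga)
    rw [e2]
    omega
  have a3 : 8 ≤ cx ((phi ^ n) ga) + cu ((phi ^ n) ga) := by
    have := (h2 (n - 2) ((phi ^ 2) ga) (by omega) (by omega)).2.2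
    rw [← MulAut.mul_apply, ← pow_add, Nat.sub_add_cancel hn] at this
    omega
  refine ⟨⟨m1, ?_⟩, ⟨m2, ?_⟩, ⟨m3, ?_⟩⟩
  · simp only [w1, cx_mul, cu_mul, cx_ga, cu_ga, cx_x0, cu_x0]; omega
  · simp only [w2, cx_mul, cu_mul, cx_ga, cu_ga, cx_x0, cu_x0]; omega
  · simp only [w3, cx_mul, cu_mul, cx_ga, cu_ga, cx_x0, cu_x0]; omega

end Pool.Agent.F8
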