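import Pool.Agent.Lib.MP_305fdd_al.F8.StmNI

/-!
# MP_305fdd_al, cyclic covers of the figure-eight knot complement. Piece [F8N Jd]
-/

set_option autoImplicit false

namespace Pool.Agent.F8

open Pool.Agent.MP_305fdd_al Pool.Agent.Lib.MP_305fdd_al Pool.Agent.F2X

private theorem Jd_mul {R : Type} [CommRing R] (c : F →* R) (x : F) (l : List F) :
    ((l.map (fun w => x * w)).map c).sum = c x * (l.map c).sum := by
  induction l with
  | nil => simp
  | cons a l ih =>
    simp only [List.map_cons, List.sum_cons, map_mul] at ih ⊢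
    rw [ih]; ring

private theorem Jd_f {R : Type} [CommRing R] (c : F →* R) (N : ℕ) (j : Bool) :
    ((oc (N + 1) false j).map c).sum =
      ((oc N false j).map c).sum + c ((phi ^ N) x0) * ((oc N true j).map c).sum := by
  show ((oc N false j ++ (oc N true j).map (fun w => (phi ^ N) x0 * w)).map c).sum = _
  rw [List.map_append, List.sum_append, Jd_mul]

private theorem Jd_t {R : Type} [CommRing R] (c : F →* R) (N : ℕ) (j : Bool) :
    ((oc (N + 1) true j).map c).sum =
      ((oc N true j).map c).sum + c ((phi ^ N) ga) * (((oc N false j).map c).sum +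
        c ((phi ^ N) x0) * ((oc N true j).map c).sum) := by
  show ((oc N true j ++ (oc N false j).map (fun w => (phi ^ N) ga * w) ++
      (oc N true j).map (fun w => (phi ^ N) (ga * x0) * w)).map c).sum = _
  rw [List.map_append, List.sum_append, Jd_mul, List.map_append, List.sum_append, Jd_mul,
    map_mul, map_mul]
  ring

theorem p_Jd : S_Jd := by
  intro R _ c N
  induction N with
  | zero =>
    refine ⟨?_, ?_⟩
    · simp [oc]
    · intro i
      cases i <;> simp [oc, lt]
  | succ N ih =>
    obtain ⟨hd, hi⟩ := ih
    have h0 := hi false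
    have h1 := hi true
    have e0 : c ((phi ^ (N + 1)) x0) = c ((phi ^ N) x0) * c ((phi ^ N) ga) := by
      rw [pow_succ, MulAut.mul_apply, phi_x0, map_mul, map_mul]
    have e1 : c ((phi ^ (N + 1)) ga) =
        c ((phi ^ N) ga) * c ((phi ^ N) x0) * c ((phi ^ N) ga) := by
      rw [pow_succ, MulAut.mul_apply, phi_ga', map_mul, map_mul, map_mul, map_mul]
    simp only [lt] at h0 h1
    refine ⟨?_, ?_⟩
    · rw [Jd_f, Jd_t, Jd_f, Jd_t]
      linear_combination hd
    · intro i
      cases i
      · simp only [lt]
        rw [Jd_f, Jd_f, e0]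
        linear_combination h0 + c ((phi ^ N) x0) * h1
      · simp only [lt]
        rw [Jd_t, Jd_t, e1]
        linear_combination h1 + c ((phi ^ N) ga) * h0 + c ((phi ^ N) ga) * c ((phi ^ N) x0) * h1

end Pool.Agent.F8
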