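import Pool.Agent.Lib.MP_305fdd_al.F8.StmNI

set_option autoImplicit false

namespace Pool.Agent.F8

open Polynomial Pool.Agent.F2X in
theorem p_ex0 (hn1b : S_n1b) (hirn : S_irn) : S_ex0 := by
  intro K _ _ h2 N w hw χ hχ
  obtain ⟨s, hs⟩ : ∃ s, s = sT (rN N w hw) χ := ⟨_, rfl⟩
  -- a root of the quadratic polynomial
  have hroot : ∃ z : K, z * z - s * z + 1 = 0 := by
    have hdeg : (X ^ 2 - C s * X + 1 : K[X]).degree = 2 := by
      have : (X ^ 2 - C s * X + 1 : K[X]) = C 1 * X ^ 2 + C (-s) * X + C 1 := by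
        simp only [map_one, map_neg]; ring
      rw [this]
      exact degree_quadratic one_ne_zero
    obtain ⟨z, hz⟩ := IsAlgClosed.exists_root (X ^ 2 - C s * X + 1 : K[X]) (by rw [hdeg]; decide)
    refine ⟨z, ?_⟩
    have h3 : z ^ 2 - s * z + 1 = 0 := by
      simpa [IsRoot] using hz
    linear_combination h3
  obtain ⟨z, hz⟩ := hroot
  have hz0 : z ≠ 0 := by
    rintro rfl
    simp at hz
  refine ⟨Units.mk0 z hz0, ?_, ?_⟩
  · apply hn1b K N (rN N w hw)
    · refine ⟨ga, gb, ?_⟩
      have h1 := (hirn K N w hw).1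
      intro h4
      have h5 : (-2 : K) = 2 := by
        rw [← h1]
        exact h4
      have h6 : (2 : K) * 2 = 0 := by linear_combination (-1 : K) * h5
      rcases mul_eq_zero.1 h6 with h7 | h7 <;> exact h2 h7
    · have e1 : (χ * (pw (Units.mk0 z hz0)).comp (nN N)) (tN N) = Units.mk0 z hz0 := by
        rw [MonoidHom.mul_apply, hχ, one_mul, MonoidHom.comp_apply, nN_tN, pw_ofAdd, zpow_one]
      have e2 : sT (rN N w hw) (χ * (pw (Units.mk0 z hz0)).comp (nN N)) = s := by
        rw [hs]
        unfold sT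
        congr 2
        apply List.map_congr_left
        intro v _
        rw [MonoidHom.mul_apply, MonoidHom.comp_apply, nN_iN, map_one, mul_one]
      rw [e1, e2]
      exact hz
  · rw [← hs]
    exact hz

end Pool.Agent.F8
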