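import Pool.Agent.Lib.MP_305fdd_al.F8.StmNI

/-!
# MP_305fdd_al, piece [F8N ocv]: the fundamental formula for `phi ^ M`
-/

set_option autoImplicit false

namespace Pool.Agent.F8

open Pool.Agent.MP_305fdd_al Pool.Agent.Lib.MP_305fdd_al Pool.Agent.F2X

/-- the sum over a list of prefixes -/
private def ocv_S {R : Type} [CommRing R] (f : F →* Q2 R) (L : List F) (y : Fin 2 → R) :
    Fin 2 → R :=
  (L.map fun w => (f w).t.val • (f w).m.val.mulVec y).sum

private theorem ocv_app {R : Type} [CommRing R] (f : F →* Q2 R) (L L' : List F) (y : Fin 2 → R) :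
    ocv_S f (L ++ L') y = ocv_S f L y + ocv_S f L' y := by
  unfold ocv_S
  rw [List.map_append, List.sum_append]

private theorem ocv_mul {R : Type} [CommRing R] (f : F →* Q2 R) (g : F) (L : List F)
    (y : Fin 2 → R) :
    ocv_S f (L.map (fun w => g * w)) y = (f g).t.val • (f g).m.val.mulVec (ocv_S f L y) := by
  induction L with
  | nil =>
    simp [ocv_S]
  | cons w L ih =>
    have h1 : ∀ (a : F) (K : List F), ocv_S f (a :: K) y =
        (f a).t.val • (f a).m.val.mulVec y + ocv_S f K y := by
      intro a K
      unfold ocv_S
      rw [List.map_cons, List.sum_cons]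
    rw [List.map_cons, h1, h1, ih, map_mul, Matrix.mulVec_add, smul_add, Q2.mul_t, Q2.mul_m,
      Units.val_mul, Matrix.SpecialLinearGroup.coe_mul, Matrix.mulVec_smul, smul_smul,
      Matrix.mulVec_mulVec]

theorem p_ocv : S_ocv := by
  intro R _ f M
  have key : ∀ i : Bool, (f ((phi ^ M) (lt i))).v =
      ocv_S f (oc M i false) (f x0).v + ocv_S f (oc M i true) (f ga).v := by
    induction M with
    | zero =>
      intro i
      cases i
      · simp only [ocv_S, oc, lt, pow_zero, MulAut.one_apply, if_true, List.map_cons, List.map_nil,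
          List.sum_cons, List.sum_nil, map_one, Q2.one_t, Q2.one_m, Units.val_one, one_smul,
          Matrix.SpecialLinearGroup.coe_one, Matrix.one_mulVec, add_zero, Bool.false_eq_true,
          if_false]
      · simp only [ocv_S, oc, lt, pow_zero, MulAut.one_apply, if_true, List.map_cons, List.map_nil,
          List.sum_cons, List.sum_nil, map_one, Q2.one_t, Q2.one_m, Units.val_one, one_smul,
          Matrix.SpecialLinearGroup.coe_one, Matrix.one_mulVec, zero_add, add_zero,
          Bool.true_eq_false, if_false]
    | succ M ih =>
      have hx := ih false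
      have hg := ih true
      change (f ((phi ^ M) x0)).v = _ at hx
      change (f ((phi ^ M) ga)).v = _ at hg
      intro i
      rw [pow_succ, MulAut.mul_apply]
      cases i with
      | false =>
        change (f ((phi ^ M) (phi x0))).v =
          ocv_S f (oc M false false ++ (oc M true false).map (fun w => (phi ^ M) x0 * w)) (f x0).v +
          ocv_S f (oc M false true ++ (oc M true true).map (fun w => (phi ^ M) x0 * w)) (f ga).v
        rw [phi_x0, map_mul, map_mul, Q2.mul_v, hx, hg, ocv_app, ocv_app, ocv_mul, ocv_mul,
          Matrix.mulVec_add, smul_add]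
        abel
      | true =>
        change (f ((phi ^ M) (phi ga))).v =
          ocv_S f (oc M true false ++ (oc M false false).map (fun w => (phi ^ M) ga * w) ++
            (oc M true false).map (fun w => (phi ^ M) (ga * x0) * w)) (f x0).v +
          ocv_S f (oc M true true ++ (oc M false true).map (fun w => (phi ^ M) ga * w) ++
            (oc M true true).map (fun w => (phi ^ M) (ga * x0) * w)) (f ga).v
        have e : f ((phi ^ M) (phi ga)) = f ((phi ^ M) ga) * f ((phi ^ M) x0) * f ((phi ^ M) ga) := by
          rw [phi_ga', map_mul, map_mul, map_mul, map_mul]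
        have e2 : f ((phi ^ M) (ga * x0)) = f ((phi ^ M) ga) * f ((phi ^ M) x0) := by
          rw [map_mul, map_mul]
        rw [e, Q2.mul_v, Q2.mul_v, hx, hg, ocv_app, ocv_app, ocv_app, ocv_app, ocv_mul, ocv_mul,
          ocv_mul, ocv_mul, e2, Matrix.mulVec_add, smul_add, Matrix.mulVec_add, smul_add]
        abel
  exact key

end Pool.Agent.F8
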